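import Pool.Agent.Results.MP_36ea0a_gt.NoSymmetrization

/-!
Continuity of the intrinsic volumes for the convergence of compact convex sets.
-/

namespace Pool.Agent.Y513.SG

open MeasureTheory Module Set Filter Topology
open scoped ENNReal
open Pool.Agent.Results.MP_b62b68_gt.NoSymmetrization

/-- An interior point of `B` belongs to every closed convex set `B'` that is close to `B`. -/
theorem mem_of_close {k : ℕ} {B B' : Set (E k)} (hB' : IsCompact B') (hc : Convex ℝ B')
    {δ r : ℝ} (hδ : δ < r) (hδ0 : 0 ≤ δ) (hBB : B ⊆ Metric.cthickening δ B') {x : E k}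
    (hx : Metric.closedBall x r ⊆ B) : x ∈ B' := by
  have hr : 0 < r := hδ0.trans_lt hδ
  by_contra hxB
  have hne : B'.Nonempty := by
    rw [Set.nonempty_iff_ne_empty]
    rintro rfl
    have := hBB (hx (Metric.mem_closedBall_self hr.le))
    rw [Metric.cthickening_empty] at this
    exact this
  obtain ⟨z, hz, hz'⟩ := exists_norm_eq_iInf_of_complete_convex hne hB'.isComplete hc x
  have h1 := (norm_eq_iInf_iff_real_inner_le_zero hc hz).1 hz'
  have hxz : x - z ≠ 0 := by
    intro h0
    rw [sub_eq_zero] at h0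
    exact hxB (h0 ▸ hz)
  have hn : 0 < ‖x - z‖ := norm_pos_iff.2 hxz
  set e : E k := (‖x - z‖)⁻¹ • (x - z) with he
  have hen : ‖e‖ = 1 := by
    rw [he, norm_smul, norm_inv, norm_norm, inv_mul_cancel₀ hn.ne']
  have hp : x + r • e ∈ B := by
    refine hx ?_
    rw [mem_closedBall_iff_norm, add_sub_cancel_left, norm_smul, hen, mul_one,
      Real.norm_of_nonneg hr.le]
  have hp2 := hBB hp
  rw [hB'.cthickening_eq_biUnion_closedBall hδ0] at hp2
  simp only [Set.mem_iUnion] at hp2
  obtain ⟨y, hy, hyp⟩ := hp2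
  rw [mem_closedBall_iff_norm] at hyp
  have h2 : inner ℝ (x + r • e - y) e ≤ ‖x + r • e - y‖ * ‖e‖ := real_inner_le_norm _ _
  rw [hen, mul_one] at h2
  have h3 : inner ℝ (x + r • e - y) e = r + ‖x - z‖ + ‖x - z‖⁻¹ * inner ℝ (z - y) (x - z) := by
    have h4 : x + r • e - y = r • e + (x - z) + (z - y) := by abel
    rw [h4, inner_add_left, inner_add_left, inner_smul_left, real_inner_self_eq_norm_sq, hen, he,
      inner_smul_right, inner_smul_right, real_inner_self_eq_norm_sq]
    simp only [conj_trivial]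
    field_simp
  have h5 : inner ℝ (z - y) (x - z) ≥ 0 := by
    have := h1 y hy
    rw [real_inner_comm, ← neg_sub z y, inner_neg_left] at this
    linarith
  have h6 : 0 ≤ ‖x - z‖⁻¹ * inner ℝ (z - y) (x - z) := by positivity
  linarith

/-- Volume is lower semicontinuous on compact convex sets. -/
theorem vol_le_liminf {k : ℕ} {B : Set (E k)} {Bm : ℕ → Set (E k)}
    (hBc : Convex ℝ B) (hm : ∀ m, IsCompact (Bm m)) (hc : ∀ m, Convex ℝ (Bm m))
    (h : ∀ m : ℕ, B ⊆ Metric.cthickening (1 / (m + 1 : ℝ)) (Bm m)) :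
    volume B ≤ liminf (fun m => volume (Bm m)) atTop := by
  have h1 : volume B = volume (interior B) := by
    refine le_antisymm ?_ (measure_mono interior_subset)
    have h2 : volume (frontier B) = 0 := hBc.addHaar_frontier volume
    calc volume B ≤ volume (interior B ∪ frontier B) := by
          refine measure_mono ?_
          rw [← closure_eq_interior_union_frontier]
          exact subset_closure
      _ ≤ volume (interior B) + volume (frontier B) := measure_union_le _ _
      _ = _ := by rw [h2, add_zero]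
  let G : ℕ → Set (E k) := fun N => ⋂ m : ℕ, ⋂ _ : N ≤ m, Bm m
  have hG : Monotone G := by
    intro N N' hNN
    refine Set.iInter_mono fun m => ?_
    intro x hx
    rw [Set.mem_iInter] at hx ⊢
    exact fun h => hx (hNN.trans h)
  have h3 : interior B ⊆ ⋃ N, G N := by
    intro x hx
    obtain ⟨r, hr, hxr⟩ := Metric.nhds_basis_closedBall.mem_iff.1 (mem_interior_iff_mem_nhds.1 hx)
    obtain ⟨N, hN⟩ := exists_nat_one_div_lt hr
    refine Set.mem_iUnion.2 ⟨N, ?_⟩
    refine Set.mem_iInter.2 fun m => Set.mem_iInter.2 fun hNm => ?_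
    refine mem_of_close (hm m) (hc m) ?_ (by positivity) (h m) hxr
    refine lt_of_le_of_lt ?_ hN
    have : (N : ℝ) ≤ m := by exact_mod_cast hNm
    gcongr
  rw [h1]
  refine (measure_mono h3).trans ?_
  rw [hG.measure_iUnion, Filter.liminf_eq_iSup_iInf_of_nat]
  refine iSup_mono fun N => ?_
  refine le_iInf₂ fun m hNm => ?_
  refine measure_mono ?_
  intro x hx
  exact Set.mem_iInter.1 (Set.mem_iInter.1 hx m) hNm

theorem vol_tendsto {k : ℕ} {B : Set (E k)} {Bm : ℕ → Set (E k)} (hB : IsCompact B)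
    (hBc : Convex ℝ B) (hm : ∀ m, IsCompact (Bm m)) (hc : ∀ m, Convex ℝ (Bm m))
    (h : ∀ m : ℕ, B ⊆ Metric.cthickening (1 / (m + 1 : ℝ)) (Bm m))
    (h' : ∀ m : ℕ, Bm m ⊆ Metric.cthickening (1 / (m + 1 : ℝ)) B) :
    Tendsto (fun m => volume (Bm m)) atTop (𝓝 (volume B)) := by
  refine tendsto_of_le_liminf_of_limsup_le (vol_le_liminf hBc hm hc h) ?_
  have h1 : Tendsto (fun m : ℕ => volume (Metric.cthickening (1 / (m + 1 : ℝ)) B)) atTop
      (𝓝 (volume B)) :=
    (tendsto_measure_cthickening_of_isCompact (μ := volume) hB).comp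
      tendsto_one_div_add_atTop_nhds_zero_nat
  rw [← h1.limsup_eq]
  exact limsup_le_limsup (Eventually.of_forall fun m => measure_mono (h' m))

theorem image_cthick {n j : ℕ} (hj : j ≤ n) (g : O n) {δ : ℝ} (hδ : 0 ≤ δ) {C C' : Set (E n)}
    (hC' : IsCompact C') (h : C ⊆ Metric.cthickening δ C') :
    A n j hj g '' C ⊆ Metric.cthickening δ (A n j hj g '' C') := by
  rintro _ ⟨x, hx, rfl⟩
  have h1 := h hx
  rw [hC'.cthickening_eq_biUnion_closedBall hδ] at h1
  simp only [Set.mem_iUnion] at h1
  obtain ⟨y, hy, hyx⟩ := h1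
  refine Metric.mem_cthickening_of_dist_le _ (A n j hj g y) _ _ ⟨y, hy, rfl⟩ ?_
  rw [dist_eq_norm, ← map_sub]
  refine (A_norm hj g _).trans ?_
  rw [← dist_eq_norm]
  exact hyx

/-- Continuity of the intrinsic volumes. -/
theorem V_tendsto {n j : ℕ} (hj : j ≤ n) {C : Set (E n)} {Cm : ℕ → Set (E n)} (hC : IsCompact C)
    (hCc : Convex ℝ C) (hm : ∀ m, IsCompact (Cm m)) (hc : ∀ m, Convex ℝ (Cm m))
    (h : ∀ m : ℕ, C ⊆ Metric.cthickening (1 / (m + 1 : ℝ)) (Cm m))
    (h' : ∀ m : ℕ, Cm m ⊆ Metric.cthickening (1 / (m + 1 : ℝ)) C) :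
    Tendsto (fun m => V n j (Cm m)) atTop (𝓝 (V n j C)) := by
  simp only [V_eq hj]
  refine ENNReal.Tendsto.const_mul ?_ (Or.inr (const_ne_top hj))
  obtain ⟨R, hR⟩ := (hC.cthickening (r := 1)).isBounded.subset_closedBall 0
  refine tendsto_lintegral_of_dominated_convergence
    (fun _ => volume (Metric.closedBall (0 : EuclideanSpace ℝ (Fin j)) R))
    (fun m => measurable_vol hj (hm m)) (fun m => Eventually.of_forall fun g => ?_) ?_
    (Eventually.of_forall fun g => ?_)
  · refine measure_mono ?_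
    rintro _ ⟨x, hx, rfl⟩
    have h1 : x ∈ Metric.cthickening 1 C := by
      refine Metric.cthickening_mono ?_ C (h' m hx)
      rw [div_le_one (by positivity)]
      linarith [(Nat.cast_nonneg m : (0 : ℝ) ≤ m)]
    have h2 := hR h1
    rw [mem_closedBall_zero_iff] at h2 ⊢
    exact (A_norm hj g x).trans h2
  · rw [lintegral_const, measure_univ, mul_one]
    exact measure_closedBall_lt_top.ne
  · refine vol_tendsto (hC.image (A n j hj g).continuous) (hCc.linear_image (A n j hj g).toLinearMap)
      (fun m => (hm m).image (A n j hj g).continuous)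
      (fun m => (hc m).linear_image (A n j hj g).toLinearMap) ?_ ?_
    · intro m
      exact image_cthick hj g (by positivity) (hm m) (h m)
    · intro m
      exact image_cthick hj g (by positivity) hC (h' m)

end Pool.Agent.Y513.SG
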