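import Pool.Agent.Y513.SG.Lim
import Pool.Agent.Y513.SG.GT

/-!
The extension to all nonempty compact convex sets, and the symmetrization in coordinates.
-/

namespace Pool.Agent.Y513.SG

open MeasureTheory Module Set Filter Topology
open scoped ENNReal
open Pool.Agent.Results.MP_b62b68_gt.NoSymmetrization
open Pool.Agent.W570.Sym (Phi Phi_apply Phi_continuous cc Sy err err_ne_top Fr FrH NC dia
  Phi_injective star_Phi refl_Phi)

/-- The properties of the extended map. -/
structure Ext3 {n : ℕ} (H : Submodule ℝ (E n)) (c : ℕ → ℝ≥0∞) (D : Set (E n) → Set (E n)) :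
    Prop where
  compact : ∀ K ∈ nonemptyCompactConvex n, IsCompact (D K)
  convex : ∀ K ∈ nonemptyCompactConvex n, Convex ℝ (D K)
  nonempty : ∀ K ∈ nonemptyCompactConvex n, (D K).Nonempty
  symm : ∀ K ∈ nonemptyCompactConvex n, ∀ x ∈ D K, H.reflection x ∈ D K
  mono : ∀ K ∈ nonemptyCompactConvex n, ∀ L ∈ nonemptyCompactConvex n, K ⊆ L → D K ⊆ D L
  pres : ∀ K ∈ nonemptyCompactConvex n, F n c (D K) = F n c K
  proj : ∀ K ∈ nonemptyCompactConvex n, ∀ x ∈ D K, ∃ y ∈ K,
    H.starProjection y = H.starProjection x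

variable {n : ℕ} {c : ℕ → ℝ≥0∞}

theorem exists_ext3 (hc : ∀ i, c i ≠ ∞) (H : Submodule ℝ (E n)) (D : Set (E n) → Set (E n))
    (hD : Bod H D) (h3 : ∀ K ∈ convexBodies n, F n c (D K) = F n c K) : ∃ D', Ext3 H c D' := by
  have hanti : ∀ K ∈ nonemptyCompactConvex n, Antitone (fun m => D (thick m K)) := by
    intro K hK a b hab
    exact hD.mono _ (thick_body b hK) _ (thick_body a hK) (thick_anti K hab)
  refine ⟨fun K => ⋂ m, D (thick m K), ?_, ?_, ?_, ?_, ?_, ?_, ?_⟩
  · intro K hK
    exact (hD.compact _ (thick_body 0 hK)).of_isClosed_subset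
      (isClosed_iInter fun m => (hD.compact _ (thick_body m hK)).isClosed) (Set.iInter_subset _ 0)
  · intro K hK
    exact convex_iInter fun m => hD.convex _ (thick_body m hK)
  · intro K hK
    refine IsCompact.nonempty_iInter_of_sequence_nonempty_isCompact_isClosed _ ?_ ?_ ?_ ?_
    · intro m
      exact hanti K hK (Nat.le_succ m)
    · intro m
      exact hD.nonempty _ (thick_body m hK)
    · exact hD.compact _ (thick_body 0 hK)
    · intro m
      exact (hD.compact _ (thick_body m hK)).isClosed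
  · intro K hK x hx
    rw [Set.mem_iInter] at hx ⊢
    intro m
    exact hD.symm _ (thick_body m hK) x (hx m)
  · intro K hK L hL hKL
    refine Set.iInter_mono fun m => ?_
    exact hD.mono _ (thick_body m hK) _ (thick_body m hL)
      (Metric.cthickening_subset_of_subset _ hKL)
  · intro K hK
    rw [F_iInter hc (fun m => hD.compact _ (thick_body m hK)) (hanti K hK)]
    have h6 : F n c K = ⨅ m, F n c (thick m K) := by
      rw [← F_iInter hc (fun m => (thick_body m hK).1) (thick_anti K), thick_iInter hK.1.isClosed]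
    rw [h6]
    exact iInf_congr fun m => h3 _ (thick_body m hK)
  · intro K hK x hx
    rw [Set.mem_iInter] at hx
    have h7 : (⋂ m, (thick m K ∩ (H.starProjection) ⁻¹' {H.starProjection x})).Nonempty := by
      refine IsCompact.nonempty_iInter_of_sequence_nonempty_isCompact_isClosed _ ?_ ?_ ?_ ?_
      · intro m
        exact Set.inter_subset_inter_left _ (thick_anti K (Nat.le_succ m))
      · intro m
        obtain ⟨y, hy, hyx⟩ := hD.proj _ (thick_body m hK) x (hx m)
        exact ⟨y, hy, hyx⟩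
      · exact (thick_body 0 hK).1.inter_right
          (isClosed_singleton.preimage H.starProjection.continuous)
      · intro m
        exact (thick_body m hK).1.isClosed.inter
          (isClosed_singleton.preimage H.starProjection.continuous)
    obtain ⟨y, hy⟩ := h7
    rw [Set.mem_iInter] at hy
    refine ⟨y, ?_, (hy 0).2⟩
    rw [← thick_iInter hK.1.isClosed]
    exact Set.mem_iInter.2 fun m => (hy m).1

section dia

variable {k : ℕ} {H : Submodule ℝ (E n)} {a u : E n} {b : Fin k → E n}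
  {D : Set (E n) → Set (E n)}

theorem dia_image (h : FrH H a u b) (hD : Ext3 H c D) {l : ℝ} (hl : 0 < l) {X : Set (Y k)}
    (hX : NC X) : Phi a u b l '' dia D a u b l X = D (Phi a u b l '' X) := by
  refine Set.Subset.antisymm (Set.image_preimage_subset _ _) ?_
  intro x hx
  obtain ⟨_, ⟨y, hy, rfl⟩, hyx⟩ := hD.proj _ (hX.image a u b l) x hx
  obtain ⟨c, hc⟩ := h.dec x
  rw [star_Phi h] at hyx
  refine ⟨((y.1.1, c / l), y.2), ?_, ?_⟩
  · change Phi a u b l ((y.1.1, c / l), y.2) ∈ D (Phi a u b l '' X)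
    have : Phi a u b l ((y.1.1, c / l), y.2) = x := by
      rw [hc, ← hyx, Phi_apply, Phi_apply]
      simp only
      rw [mul_div_cancel₀ _ hl.ne']
      simp only [zero_mul, zero_smul, add_zero]
      abel
    rw [this]
    exact hx
  · rw [hc, ← hyx, Phi_apply, Phi_apply]
    simp only
    rw [mul_div_cancel₀ _ hl.ne']
    simp only [zero_mul, zero_smul, add_zero]
    abel

theorem dia_sy (h : FrH H a u b) (hD : Ext3 H c D) {l : ℝ} (hl : 0 < l) {X : Set (Y k)}
    (hX : NC X) : Sy (dia D a u b l X) where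
  compact := by
    have h1 : Topology.IsClosedEmbedding (Phi a u b l) :=
      LinearMap.isClosedEmbedding_of_injective
        (LinearMap.ker_eq_bot.2 (Phi_injective h.toFr hl.ne'))
    exact h1.isCompact_preimage (hD.compact _ (hX.image a u b l))
  convex := (hD.convex _ (hX.image a u b l)).linear_preimage _
  symm := by
    intro y hy
    change Phi a u b l ((y.1.1, -y.1.2), y.2) ∈ D (Phi a u b l '' X)
    rw [← refl_Phi h]
    exact hD.symm _ (hX.image a u b l) _ hy

theorem dia_nonempty (h : FrH H a u b) (hD : Ext3 H c D) {l : ℝ} (hl : 0 < l) {X : Set (Y k)}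
    (hX : NC X) : (dia D a u b l X).Nonempty := by
  have h1 := hD.nonempty _ (hX.image a u b l)
  rw [← dia_image h hD hl hX] at h1
  exact Set.image_nonempty.1 h1

theorem dia_mono (hD : Ext3 H c D) (l : ℝ) {X X' : Set (Y k)}
    (hX : NC X) (hX' : NC X') (hXX : X ⊆ X') : dia D a u b l X ⊆ dia D a u b l X' :=
  Set.preimage_mono (hD.mono _ (hX.image a u b l) _ (hX'.image a u b l) (Set.image_mono hXX))

theorem dia_F (h : FrH H a u b) (hD : Ext3 H c D) {l : ℝ} (hl : 0 < l) {X : Set (Y k)}
    (hX : NC X) : F n c (Phi a u b l '' dia D a u b l X) = F n c (Phi a u b l '' X) := by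
  rw [dia_image h hD hl hX, hD.pres _ (hX.image a u b l)]

theorem dia_hor (h : FrH H a u b) (hD : Ext3 H c D) {l : ℝ} {X : Set (Y k)}
    (hX : NC X) {y : Y k} (hy : y ∈ dia D a u b l X) : ∃ s : ℝ, ((y.1.1, s), y.2) ∈ X := by
  obtain ⟨_, ⟨z, hz, rfl⟩, hzy⟩ := hD.proj _ (hX.image a u b l) _ hy
  rw [star_Phi h, star_Phi h] at hzy
  have h1 : Phi a u b 1 ((z.1.1, 0), z.2) = Phi a u b 1 ((y.1.1, 0), y.2) := by
    rw [Phi_apply, Phi_apply] at hzy ⊢
    simpa using hzy
  have h2 := Phi_injective h.toFr one_ne_zero h1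
  refine ⟨z.1.2, ?_⟩
  have h3 : z.1.1 = y.1.1 := (Prod.ext_iff.1 (Prod.ext_iff.1 h2).1).1
  have h4 : z.2 = y.2 := (Prod.ext_iff.1 h2).2
  rw [← h3, ← h4]
  exact hz

/-- The points of `X` in `H` belong to the symmetrization. -/
theorem dia_base (h : FrH H a u b) (hD : Ext3 H c D) {l : ℝ} (hl : 0 < l) {X : Set (Y k)}
    (hX : NC X) {y : Y k} (hy : y ∈ X) : ((y.1.1, 0), y.2) ∈ dia D a u b l X := by
  have hW : NC ({y} : Set (Y k)) := ⟨isCompact_singleton, convex_singleton _,
    Set.singleton_nonempty _⟩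
  obtain ⟨z, hz⟩ := dia_nonempty h hD hl hW
  obtain ⟨s, hs⟩ := dia_hor h hD hW hz
  rw [Set.mem_singleton_iff] at hs
  have h1 : z.1.1 = y.1.1 := (Prod.ext_iff.1 (Prod.ext_iff.1 hs).1).1
  have h2 : z.2 = y.2 := (Prod.ext_iff.1 hs).2
  have h3 := dia_mono hD l hW hX (Set.singleton_subset_iff.2 hy) hz
  rw [← h1, ← h2]
  exact (dia_sy h hD hl hX).seg h3 (by rw [abs_zero]; exact abs_nonneg _)

end dia

end Pool.Agent.Y513.SG
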