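import Pool.Agent.Y513.SG.GMain

/-!
The contradiction for combinations of the mean width and the volume.
-/

namespace Pool.Agent.Y513.SG

open MeasureTheory Module Set Filter Topology
open scoped ENNReal
open Pool.Agent.Results.MP_b62b68_gt.NoSymmetrization
open Pool.Agent.W570.Sym (exists_frame Phi Phi_apply Phi_continuous cc Sy err err_ne_top Fr FrH NC
  dia Phi_injective star_Phi refl_Phi cu Th Th_apply Th_cons Z haarZ V_translate V_plate V_rot
  exists_cols Th_V exists_frH)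

/-- The one-dimensional volume of vertical cylinders. -/
theorem vol_Wc_one {k : ℕ} {a v : E (0 + 1)} {b : Fin k → E (0 + 1)} (hv : v ≠ 0)
    {X : Set (ℝ × (Fin k → ℝ))} (hX : IsCompact X) (hXc : Convex ℝ X) (hXn : X.Nonempty) :
    volume (Bm a v b '' Wc X (1 / 2)) = ENNReal.ofReal ‖v‖ := by
  obtain ⟨Γ, R, hΓm, hΓ, hR⟩ := exists_frame v
  have hv' : 0 < ‖v‖ := norm_pos_iff.2 hv
  rw [vol_fib (Bm_continuous a v b) (Wc_sy hX hXc _).compact Γ hΓm]
  have h1 : ∀ z : Fin 0 → ℝ, {t : ℝ | ∃ y ∈ Wc X (1 / 2), Γ (Bm a v b y) = (t, z)} =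
      Icc (-(1 / 2 * ‖v‖)) (1 / 2 * ‖v‖) := by
    intro z
    ext t
    constructor
    · rintro ⟨y, ⟨-, hy⟩, h⟩
      rw [frame_Bm hΓ hR hv] at h
      have h3 : y.1.2 * ‖v‖ = t := (Prod.ext_iff.1 h).1
      rw [← h3]
      rw [abs_le] at hy
      constructor <;> nlinarith [hy.1, hy.2]
    · intro ht
      obtain ⟨x, hx⟩ := hXn
      refine ⟨((x.1, t / ‖v‖), x.2), ⟨hx, ?_⟩, ?_⟩
      · simp only
        rw [abs_div, abs_of_pos hv', div_le_iff₀ hv', abs_le]
        exact ht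
      · rw [frame_Bm hΓ hR hv]
        refine Prod.ext ?_ (Subsingleton.elim _ _)
        change t / ‖v‖ * ‖v‖ = t
        field_simp
  simp only [h1]
  rw [Real.volume_Icc, lintegral_const]
  have h2 : (volume : Measure (Fin 0 → ℝ)) Set.univ = 1 := by
    have h3 : (Set.univ : Set (Fin 0 → ℝ)) = Icc 0 0 := by
      ext z
      simp [Subsingleton.elim z 0]
    rw [h3, Real.volume_Icc_pi]
    simp
  rw [h2, mul_one]
  congr 1
  ring

variable {n k : ℕ} {c : ℕ → ℝ≥0∞} {H : Submodule ℝ (E n)} {a u : E n} {b : Fin k → E n}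
  {D : Set (E n) → Set (E n)}

theorem T_one (hj : 0 + 1 ≤ n) {X X' : Set (ℝ × (Fin k → ℝ))} (hX : IsCompact X)
    (hXc : Convex ℝ X) (hXn : X.Nonempty) (hX' : IsCompact X')
    (hXc' : Convex ℝ X') (hXn' : X'.Nonempty) :
    T hj a u b (Wc X (1 / 2)) = T hj a u b (Wc X' (1 / 2)) := by
  unfold T
  refine lintegral_congr fun g => ?_
  unfold tau
  by_cases hv : A n (0 + 1) hj g u ≠ 0
  · rw [Set.indicator_of_mem (show g ∈ {g : O n | A n (0 + 1) hj g u ≠ 0} from hv),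
      Set.indicator_of_mem (show g ∈ {g : O n | A n (0 + 1) hj g u ≠ 0} from hv),
      vol_Wc_one hv hX hXc hXn, vol_Wc_one hv hX' hXc' hXn']
  · rw [Set.indicator_of_notMem (show g ∉ {g : O n | A n (0 + 1) hj g u ≠ 0} from hv),
      Set.indicator_of_notMem (show g ∉ {g : O n | A n (0 + 1) hj g u ≠ 0} from hv)]

/-- The vertical unit segment. -/
def sg (k : ℕ) : Set (Y k) := Wc ({0} ×ˢ {0} : Set (ℝ × (Fin k → ℝ))) (1 / 2)

theorem sg_sy (k : ℕ) : Sy (sg k) :=
  Wc_sy (isCompact_singleton.prod isCompact_singleton)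
    ((convex_singleton _).prod (convex_singleton _)) _

theorem T_sg_pos (hj : 0 + 1 ≤ n) (h : Fr a u b) : 0 < T hj a u b (sg k) := by
  rw [pos_iff_ne_zero]
  intro h0
  obtain ⟨κ, hκ0, hκt, hκ⟩ := Th_V (k := 0) hj h.un (b := (Fin.elim0 : Fin 0 → E n))
    (fun i => i.elim0) ⟨fun i => i.elim0, fun i => i.elim0⟩
  obtain ⟨r, hr0, hr⟩ := exists_rad (a := a) (u := u) (b := b) (sg_sy k).compact
  obtain ⟨m, hm, hm0⟩ := ((arch (x := 0) (pos_iff_ne_zero.2 hκ0)
    (ENNReal.mul_ne_top (cc_ne_top hj) (err_ne_top 0 r))).and (eventually_gt_atTop 0)).exists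
  have hm' : (0 : ℝ) < 3 * m := by
    have : (0 : ℝ) < m := by exact_mod_cast hm0
    positivity
  have h1 := V_upper hj a u b (sg_sy k).compact (sg_sy k) (fun t => -(t / 2))
    (fun t ht y hy h => by
      have h2 := h y.1.2 hy
      have h3 := abs_le.1 (show |y.1.2| ≤ t / 2 by linarith)
      constructor <;> linarith [h3.1, h3.2]) hm'.le hr0 hr
  rw [h0] at h1
  rw [mul_zero, zero_add (err 0 r)] at h1
  rw [mul_zero, zero_add] at hm
  have h2 : Phi a u b (3 * m) '' sg k = Th u (Fin.elim0 : Fin 0 → E n) ''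
      (Icc (-(3 * m / 2) : ℝ) (3 * m / 2) ×ˢ Set.univ) := by
    ext x
    constructor
    · rintro ⟨y, ⟨⟨h3, h4⟩, h5⟩, rfl⟩
      simp only [Set.mem_singleton_iff] at h3 h4
      rw [abs_le] at h5
      refine ⟨(3 * m * y.1.2, Fin.elim0), ⟨⟨?_, ?_⟩, trivial⟩, ?_⟩
      · simp only
        nlinarith [h5.1]
      · simp only
        nlinarith [h5.2]
      · simp [Th_apply, Phi_apply, h3, h4]
    · rintro ⟨⟨t, q⟩, ⟨⟨h3, h4⟩, -⟩, rfl⟩
      simp only at h3 h4
      refine ⟨((0, t / (3 * m)), 0), ⟨⟨rfl, rfl⟩, ?_⟩, ?_⟩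
      · simp only
        rw [abs_div, abs_of_pos hm', div_le_iff₀ hm', abs_le]
        constructor <;> linarith
      · simp only [Th_apply, Phi_apply]
        rw [mul_div_cancel₀ _ hm'.ne']
        simp
  have h3 : V n (0 + 1) (Phi a u b (3 * m) '' sg k) = ENNReal.ofReal (3 * m) * κ := by
    rw [h2, hκ, Measure.volume_eq_prod, Measure.prod_prod, Real.volume_Icc]
    have h4 : (volume : Measure (Fin 0 → ℝ)) Set.univ = 1 := by
      have h3 : (Set.univ : Set (Fin 0 → ℝ)) = Icc 0 0 := by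
        ext z
        simp [Subsingleton.elim z 0]
      rw [h3, Real.volume_Icc_pi]
      simp
    rw [h4, mul_one, mul_comm]
    congr 2
    ring
  rw [h3] at h1
  exact absurd h1 (not_le.2 hm)

/-- Volumes in full dimension. -/
theorem V_full (hn : k + 2 = n) (h : Fr a u b) {l : ℝ} (hl : l ≠ 0) : ∃ κ : ℝ≥0∞, κ ≠ 0 ∧ κ ≠ ∞ ∧
    ∀ X : Set (Y k), V n (k + 2) (Phi a u b l '' X) = κ * volume X :=
  V_linear (by omega) volume (by simp [add_comm]) (Phi a u b l) (Phi_injective h hl)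

theorem vol_thin (hk : 1 ≤ k) {X : Set (Y k)} (hX : ∀ y ∈ X, y.2 = 0) : volume X = 0 := by
  have h1 : X ⊆ Set.univ ×ˢ ({0} : Set (Fin k → ℝ)) := fun y hy => ⟨trivial, hX y hy⟩
  refine measure_mono_null h1 ?_
  rw [Measure.volume_eq_prod, Measure.prod_prod]
  have h2 : volume ({0} : Set (Fin k → ℝ)) = 0 := by
    rw [← Set.Icc_self, Real.volume_Icc_pi]
    simp
    omega
  rw [h2, mul_zero]

theorem vol_plate_zero {Q : Set (Fin k → ℝ)} : volume (PlQ Q) = 0 := by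
  have h1 : PlQ Q ⊆ {p : ℝ × ℝ | p.2 = p.1} ×ˢ (Set.univ : Set (Fin k → ℝ)) :=
    fun y hy => ⟨hy.2.2.1, trivial⟩
  refine measure_mono_null h1 ?_
  rw [Measure.volume_eq_prod, Measure.prod_prod]
  have h2 : volume {p : ℝ × ℝ | p.2 = p.1} = 0 := by
    have h3 : MeasurableSet {p : ℝ × ℝ | p.2 = p.1} :=
      measurableSet_eq_fun measurable_snd measurable_fst
    rw [Measure.volume_eq_prod, Measure.prod_apply h3]
    simp
  rw [h2, zero_mul]

/-- The contradiction for the two ends. -/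
theorem contra_ends (hn : k + 2 = n) (hk : 1 ≤ k) (hc : ∀ i, c i ≠ ∞) (hc0 : c 0 ≠ 0)
    (hcn : c (k + 1) ≠ 0) (hmid : ∀ i < n, i ≠ 0 → i ≠ k + 1 → c i = 0) (h : FrH H a u b)
    (hD : Ext3 H c D) : False := by
  have hj : 0 + 1 ≤ n := by omega
  have hF : ∀ K : Set (E n), F n c K = c 0 * V n (0 + 1) K + c (k + 1) * V n (k + 2) K := by
    intro K
    unfold F
    refine Finset.sum_eq_add 0 (k + 1) (by omega) ?_ ?_ ?_
    · intro i hin hi
      rw [hmid i (Finset.mem_range.1 hin) hi.1 hi.2, zero_mul]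
    · intro h0
      exact absurd (Finset.mem_range.2 (by omega)) h0
    · intro h0
      exact absurd (Finset.mem_range.2 (by omega)) h0
  set S : Set (Y k) := PlQ {0} with hS
  have hSNC : NC S := PlQ_NC isCompact_singleton (convex_singleton _) (Set.singleton_nonempty _)
  set P : Set (Y k) := PlQ (cu k) with hP
  have hPNC : NC P := PlQ_NC (cu_compact k) (cu_convex k) ⟨0, ⟨le_rfl, fun i => zero_le_one⟩⟩
  have hSP : S ⊆ P := by
    rintro y ⟨h0, h1, h2, h3⟩
    refine ⟨h0, h1, h2, ?_⟩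
    rw [Set.mem_singleton_iff.1 h3]
    exact ⟨le_rfl, fun i => zero_le_one⟩
  have hVF : ∀ (l : ℝ), l ≠ 0 → ∀ X : Set (Y k), volume X = 0 →
      F n c (Phi a u b l '' X) = c 0 * V n (0 + 1) (Phi a u b l '' X) := by
    intro l hl X hX
    obtain ⟨κ, -, -, hκ⟩ := V_full hn h.toFr hl
    rw [hF, hκ, hX]
    simp
  have hSdia : ∀ l : ℝ, 0 < l → V n (0 + 1) (Phi a u b l '' dia D a u b l S) =
      V n (0 + 1) (Phi a u b l '' S) := by
    intro l hl
    have h1 := dia_F h hD hl hSNC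
    rw [hVF l hl.ne' S vol_plate_zero, hVF l hl.ne' _ (vol_thin hk ?_)] at h1
    · exact (ENNReal.mul_right_inj hc0 (hc 0)).1 h1
    · intro y hy
      obtain ⟨s, hs⟩ := dia_hor h hD hSNC hy
      exact hs.2.2.2
  set t0 := T hj a u b (sg k) with ht0
  have ht0pos : 0 < t0 := T_sg_pos hj h.toFr
  have ht0top : t0 ≠ ∞ := (T_lt_top hj a u b (sg_sy k)).ne
  -- lower bound for the segment
  have hSlow : ∀ l : ℝ, 0 < l → ENNReal.ofReal l * (cc n 0 * t0) ≤
      V n (0 + 1) (Phi a u b l '' S) := by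
    intro l hl
    calc ENNReal.ofReal l * (cc n 0 * t0) = cc n 0 * (ENNReal.ofReal l * t0) := by ring
      _ ≤ V n (0 + 1) (Phi a u b l '' sg k) := V_lower hj a u b (sg_sy k) hl.le
      _ ≤ _ := V_tilt (by omega) hj h.toFr a hl {0}
  -- the high point
  have hX1 : IsCompact (Icc (0 : ℝ) 1 ×ˢ ({0} : Set (Fin k → ℝ))) :=
    isCompact_Icc.prod isCompact_singleton
  have hX1c : Convex ℝ (Icc (0 : ℝ) 1 ×ˢ ({0} : Set (Fin k → ℝ))) :=
    (convex_Icc _ _).prod (convex_singleton _)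
  have hX1n : (Icc (0 : ℝ) 1 ×ˢ ({0} : Set (Fin k → ℝ))).Nonempty := ⟨(0, 0), ⟨by simp, rfl⟩⟩
  have hM1 : Sy (Wc (Icc (0 : ℝ) 1 ×ˢ ({0} : Set (Fin k → ℝ))) (1 / 3)) := Wc_sy hX1 hX1c _
  obtain ⟨r1, hr10, hr1⟩ := exists_rad (a := a) (u := u) (b := b) hM1.compact
  have hTM1 : T hj a u b (Wc (Icc (0 : ℝ) 1 ×ˢ ({0} : Set (Fin k → ℝ))) (1 / 3)) =
      ENNReal.ofReal (2 * (1 / 3)) * t0 := by
    rw [T_Wc hj a u b hX1 hX1c (by norm_num), T_one hj hX1 hX1c hX1n
      (isCompact_singleton.prod isCompact_singleton)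
      ((convex_singleton _).prod (convex_singleton _)) ⟨(0, 0), ⟨rfl, rfl⟩⟩]
    rfl
  have hlt1 : cc n 0 * (ENNReal.ofReal (2 * (1 / 3)) * t0) < cc n 0 * t0 := by
    rw [ENNReal.mul_lt_mul_iff_right (cc_ne_zero 0) (cc_ne_top hj)]
    calc ENNReal.ofReal (2 * (1 / 3)) * t0 < 1 * t0 := by
          refine ENNReal.mul_lt_mul_left ht0pos.ne' ht0top ?_
          rw [← ENNReal.ofReal_one, ENNReal.ofReal_lt_ofReal_iff one_pos]
          norm_num
      _ = t0 := one_mul t0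
  have hhigh : ∀ᶠ m : ℕ in atTop, ∃ x ∈ Icc (0 : ℝ) 1,
      (((x, 1 / 3), 0) : Y k) ∈ dia D a u b (3 * m) S := by
    filter_upwards [arch hlt1 (ENNReal.mul_ne_top (cc_ne_top hj) (err_ne_top 0 r1)),
      eventually_gt_atTop 0] with m hm hm0
    have hl : (0 : ℝ) < 3 * m := by
      have : (0 : ℝ) < m := by exact_mod_cast hm0
      positivity
    have hsy := dia_sy h hD hl hSNC
    have hhor : ∀ y ∈ dia D a u b (3 * m) S, y.1.1 ∈ Icc (0 : ℝ) 1 ∧ y.2 = 0 := by
      intro y hy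
      obtain ⟨s, h0, h1, -, h3⟩ := dia_hor h hD hSNC hy
      exact ⟨⟨h0, h1⟩, h3⟩
    obtain ⟨y, hy, hys⟩ : ∃ y ∈ dia D a u b (3 * m) S, 1 / 3 ≤ |y.1.2| := by
      by_contra hcon
      push Not at hcon
      have h1 : dia D a u b (3 * m) S ⊆ Wc (Icc (0 : ℝ) 1 ×ˢ ({0} : Set (Fin k → ℝ))) (1 / 3) := by
        intro y hy
        obtain ⟨h2, h3⟩ := hhor y hy
        exact ⟨⟨h2, h3⟩, (hcon y hy).le⟩
      have h2 : ENNReal.ofReal (3 * m) * (cc n 0 * t0) ≤
          ENNReal.ofReal (3 * m) * (cc n 0 * (ENNReal.ofReal (2 * (1 / 3)) * t0)) +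
            cc n 0 * err 0 r1 :=
        calc _ ≤ V n (0 + 1) (Phi a u b (3 * m) '' S) := hSlow _ hl
          _ = V n (0 + 1) (Phi a u b (3 * m) '' dia D a u b (3 * m) S) := (hSdia _ hl).symm
          _ ≤ V n (0 + 1) (Phi a u b (3 * m) ''
                Wc (Icc (0 : ℝ) 1 ×ˢ ({0} : Set (Fin k → ℝ))) (1 / 3)) :=
              V_mono (Set.image_mono h1)
          _ ≤ cc n 0 * (ENNReal.ofReal (3 * m) *
                T hj a u b (Wc (Icc (0 : ℝ) 1 ×ˢ ({0} : Set (Fin k → ℝ))) (1 / 3)) + err 0 r1) :=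
              V_upper hj a u b hM1.compact hM1 (fun t => -(t / 2)) (fun t ht y hy h => by
                have h2 := h y.1.2 hy
                have h3 := abs_le.1 (show |y.1.2| ≤ t / 2 by linarith)
                constructor <;> linarith [h3.1, h3.2]) hl.le hr10 hr1
          _ = _ := by
              rw [hTM1]
              ring
      exact absurd h2 (not_le.2 hm)
    obtain ⟨h1, h2⟩ := hhor y hy
    refine ⟨y.1.1, h1, ?_⟩
    rw [← h2]
    refine hsy.seg hy ?_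
    rw [abs_of_pos (by norm_num)]
    exact hys
  -- the fixed box
  let X0 : Set (ℝ × (Fin k → ℝ)) := Icc (1 / 4 : ℝ) (3 / 4) ×ˢ
    Icc (fun _ => (0 : ℝ)) (fun _ => (3 / 4 : ℝ))
  have hbox : ∀ᶠ m : ℕ in atTop, Wc X0 (1 / 12) ⊆ dia D a u b (3 * m) P := by
    filter_upwards [hhigh, eventually_gt_atTop 0] with m hm hm0
    have hl : (0 : ℝ) < 3 * m := by
      have : (0 : ℝ) < m := by exact_mod_cast hm0
      positivity
    obtain ⟨x, hx, hxS⟩ := hm
    have hxP := dia_mono hD _ hSNC hPNC hSP hxS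
    have hsy := dia_sy h hD hl hPNC
    rintro y ⟨⟨h1, h2⟩, h3⟩
    simp only at h1 h2
    have h4 : ((x, 4 * y.1.2), (0 : Fin k → ℝ)) ∈ dia D a u b (3 * m) P := by
      refine hsy.seg hxP ?_
      rw [abs_mul, abs_of_pos (by norm_num : (0 : ℝ) < 4), abs_of_pos (by norm_num : (0 : ℝ) < 1 / 3)]
      linarith
    have h5 : ((((4 * y.1.1 - x) / 3, 0), fun i => 4 / 3 * y.2 i) : Y k) ∈
        dia D a u b (3 * m) P := by
      have h6 : ((((4 * y.1.1 - x) / 3, (4 * y.1.1 - x) / 3), fun i => 4 / 3 * y.2 i) : Y k) ∈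
          P := by
        refine ⟨?_, ?_, rfl, ?_, ?_⟩
        · simp only
          linarith [h1.1, hx.2]
        · simp only
          linarith [h1.2, hx.1]
        · intro i
          have := h2.1 i
          simp only [Pi.zero_apply] at this ⊢
          linarith
        · intro i
          have := h2.2 i
          simp only [Pi.one_apply] at this ⊢
          linarith
      exact dia_base h hD hl hPNC h6
    have h7 := hsy.convex h5 h4 (a := 3 / 4) (b := 1 / 4) (by norm_num) (by norm_num)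
      (by norm_num)
    convert h7 using 1
    refine Prod.ext (Prod.ext ?_ ?_) ?_
    · simp only [Prod.fst_add, Prod.smul_fst, smul_eq_mul]
      ring
    · simp only [Prod.fst_add, Prod.smul_fst, Prod.snd_add, Prod.smul_snd, smul_eq_mul]
      ring
    · funext i
      simp only [Prod.snd_add, Prod.smul_snd, Pi.add_apply, Pi.smul_apply, smul_eq_mul,
        Pi.zero_apply]
      ring
  -- the volume of the box
  obtain ⟨κ, hκ0, hκt, hκ⟩ := V_full hn h.toFr (one_ne_zero)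
  have hvol : ∃ v0 : ℝ≥0∞, v0 ≠ 0 ∧ ∀ l : ℝ, 0 < l →
      ENNReal.ofReal l * v0 ≤ V n (k + 2) (Phi a u b l '' Wc X0 (1 / 12)) := by
    refine ⟨κ * (ENNReal.ofReal (1 / 2) * ENNReal.ofReal (1 / 6) *
      volume (Icc (fun _ : Fin k => (0 : ℝ)) (fun _ => (3 / 4 : ℝ)))), ?_, ?_⟩
    · refine mul_ne_zero hκ0 (mul_ne_zero (mul_ne_zero ?_ ?_) ?_)
      · simp
      · simp
      · rw [Real.volume_Icc_pi, Finset.prod_ne_zero_iff]
        intro i _
        rw [Ne, ENNReal.ofReal_eq_zero, not_le]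
        norm_num
    · intro l hl
      have h1 : Phi a u b 1 '' ((Icc (1 / 4 : ℝ) (3 / 4) ×ˢ Icc (-(l / 12)) (l / 12)) ×ˢ
          Icc (fun _ => (0 : ℝ)) (fun _ => (3 / 4 : ℝ))) ⊆ Phi a u b l '' Wc X0 (1 / 12) := by
        rintro _ ⟨y, ⟨⟨h2, h3⟩, h4⟩, rfl⟩
        refine ⟨((y.1.1, y.1.2 / l), y.2), ⟨⟨h2, h4⟩, ?_⟩, ?_⟩
        · simp only
          rw [abs_div, abs_of_pos hl, div_le_iff₀ hl, abs_le]
          constructor <;> linarith [h3.1, h3.2]
        · simp only [Phi_apply]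
          rw [mul_div_cancel₀ _ hl.ne', one_mul]
      refine le_trans (le_of_eq ?_) (V_mono h1)
      rw [hκ, Measure.volume_eq_prod, Measure.prod_prod, Measure.volume_eq_prod,
        Measure.prod_prod, Real.volume_Icc, Real.volume_Icc]
      rw [show (3 / 4 : ℝ) - 1 / 4 = 1 / 2 by norm_num, show l / 12 - -(l / 12) = l * (1 / 6) by ring,
        ENNReal.ofReal_mul hl.le]
      ring
  obtain ⟨v0, hv0, hv⟩ := hvol
  -- the upper bound for the plate
  have hX2 : IsCompact (Icc (0 : ℝ) 1 ×ˢ cu k) := isCompact_Icc.prod (cu_compact k)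
  have hX2c : Convex ℝ (Icc (0 : ℝ) 1 ×ˢ cu k) := (convex_Icc _ _).prod (cu_convex k)
  have hX2n : (Icc (0 : ℝ) 1 ×ˢ cu k).Nonempty :=
    ⟨(0, 0), ⟨by simp, ⟨le_rfl, fun i => zero_le_one⟩⟩⟩
  have hM2 : Sy (Wc (Icc (0 : ℝ) 1 ×ˢ cu k) (1 / 2)) := Wc_sy hX2 hX2c _
  obtain ⟨r2, hr20, hr2⟩ := exists_rad (a := a) (u := u) (b := b) hPNC.compact
  have hTM2 : T hj a u b (Wc (Icc (0 : ℝ) 1 ×ˢ cu k) (1 / 2)) = t0 := by
    rw [T_one hj hX2 hX2c hX2n (isCompact_singleton.prod isCompact_singleton)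
      ((convex_singleton _).prod (convex_singleton _)) ⟨(0, 0), ⟨rfl, rfl⟩⟩]
    rfl
  have hlt2 : c 0 * (cc n 0 * t0) < c 0 * (cc n 0 * t0) + c (k + 1) * v0 :=
    ENNReal.lt_add_right
      (ENNReal.mul_ne_top (hc 0) (ENNReal.mul_ne_top (cc_ne_top hj) ht0top))
      (mul_ne_zero hcn hv0)
  obtain ⟨m, ⟨hm1, hm2⟩, hm0⟩ := ((hbox.and (arch hlt2 (e := c 0 * (cc n 0 * err 0 r2))
    (ENNReal.mul_ne_top (hc 0) (ENNReal.mul_ne_top (cc_ne_top hj) (err_ne_top 0 r2))))).and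
    (eventually_gt_atTop 0)).exists
  have hl : (0 : ℝ) < 3 * m := by
    have : (0 : ℝ) < m := by exact_mod_cast hm0
    positivity
  have h1 : ENNReal.ofReal (3 * m) * (c 0 * (cc n 0 * t0) + c (k + 1) * v0) ≤
      ENNReal.ofReal (3 * m) * (c 0 * (cc n 0 * t0)) + c 0 * (cc n 0 * err 0 r2) :=
    calc ENNReal.ofReal (3 * m) * (c 0 * (cc n 0 * t0) + c (k + 1) * v0)
        = c 0 * (ENNReal.ofReal (3 * m) * (cc n 0 * t0)) +
            c (k + 1) * (ENNReal.ofReal (3 * m) * v0) := by ring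
      _ ≤ c 0 * V n (0 + 1) (Phi a u b (3 * m) '' dia D a u b (3 * m) P) +
            c (k + 1) * V n (k + 2) (Phi a u b (3 * m) '' dia D a u b (3 * m) P) := by
          refine add_le_add (mul_le_mul_right ?_ _) (mul_le_mul_right ?_ _)
          · refine (hSlow _ hl).trans ?_
            rw [← hSdia _ hl]
            exact V_mono (Set.image_mono (dia_mono hD _ hSNC hPNC hSP))
          · exact (hv _ hl).trans (V_mono (Set.image_mono hm1))
      _ = F n c (Phi a u b (3 * m) '' dia D a u b (3 * m) P) := (hF _).symm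
      _ = F n c (Phi a u b (3 * m) '' P) := dia_F h hD hl hPNC
      _ = c 0 * V n (0 + 1) (Phi a u b (3 * m) '' P) := hVF _ hl.ne' _ vol_plate_zero
      _ ≤ c 0 * (cc n 0 * (ENNReal.ofReal (3 * m) * t0 + err 0 r2)) := by
          refine mul_le_mul_right ?_ _
          rw [← hTM2]
          refine V_upper hj a u b hPNC.compact hM2 (fun _ => 0) (fun t ht y hy h => ?_) hl.le
            hr20 hr2
          obtain ⟨h3, h4, h5, h6⟩ := hy
          have h7 := h (1 / 2) ⟨⟨⟨h3, h4⟩, h6⟩, by rw [abs_of_pos (by norm_num)]⟩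
          rw [abs_of_pos (by norm_num)] at h7
          constructor <;> linarith
      _ = _ := by ring
  exact absurd h1 (not_le.2 hm2)

end Pool.Agent.Y513.SG
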