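import Pool.Agent.Results.MP_36ea0a_gt.NoSymmetrization

/-!
Fibrewise volume estimates for linear images of compact sets stretched in one direction, with a
target space of any dimension.
-/

namespace Pool.Agent.Y513.SG

open MeasureTheory Module Set Filter Topology
open scoped ENNReal
open Pool.Agent.Results.MP_b62b68_gt.NoSymmetrization (E O haarO A V Y)
open Pool.Agent.W570.Sym (exists_frame)

/-- The horizontal part. -/
def hor {k d : ℕ} (a : E (d + 1)) (b : Fin k → E (d + 1)) (y : Y k) : E (d + 1) :=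
  y.1.1 • a + ∑ i, y.2 i • b i

/-- The stretched linear map. -/
def Psi {k d : ℕ} (a v : E (d + 1)) (b : Fin k → E (d + 1)) (l : ℝ) (y : Y k) : E (d + 1) :=
  hor a b y + (l * y.1.2) • v

/-- The limit map. -/
noncomputable def Bm {k d : ℕ} (a v : E (d + 1)) (b : Fin k → E (d + 1)) (y : Y k) : E (d + 1) :=
  hor a b y - (inner ℝ v (hor a b y) / ‖v‖ ^ 2) • v + y.1.2 • v

theorem hor_continuous {k d : ℕ} (a : E (d + 1)) (b : Fin k → E (d + 1)) :
    Continuous (hor a b) := by
  unfold hor
  fun_prop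

theorem Psi_continuous {k d : ℕ} (a v : E (d + 1)) (b : Fin k → E (d + 1)) (l : ℝ) :
    Continuous (Psi a v b l) := by
  unfold Psi
  have := hor_continuous a b
  fun_prop

theorem Bm_continuous {k d : ℕ} (a v : E (d + 1)) (b : Fin k → E (d + 1)) :
    Continuous (Bm a v b) := by
  unfold Bm
  have := hor_continuous a b
  fun_prop

theorem vol_fib {k d : ℕ} {f : Y k → E (d + 1)} (hf : Continuous f) {X : Set (Y k)}
    (hX : IsCompact X) (Γ : E (d + 1) ≃ᵐ ℝ × (Fin d → ℝ)) (hΓ : MeasurePreserving Γ volume volume) :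
    volume (f '' X) = ∫⁻ z : Fin d → ℝ, volume {t : ℝ | ∃ y ∈ X, Γ (f y) = (t, z)} := by
  have h1 : volume (f '' X) = volume (Γ '' (f '' X)) := by
    rw [← hΓ.measure_preimage_equiv (Γ '' (f '' X)), Set.preimage_image_eq _ Γ.injective]
  have h2 : MeasurableSet (Γ '' (f '' X)) :=
    (Γ.measurableSet_image).2 (hX.image hf).isClosed.measurableSet
  rw [h1]
  change (volume.prod volume) _ = _
  rw [Measure.prod_apply_symm h2]
  refine lintegral_congr fun z => ?_
  congr 1
  ext t
  simp only [Set.mem_preimage, Set.mem_image, Set.mem_ofPred_eq]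
  constructor
  · rintro ⟨w, ⟨y, hy, rfl⟩, h⟩
    exact ⟨y, hy, h⟩
  · rintro ⟨y, hy, h⟩
    exact ⟨_, ⟨y, hy, rfl⟩, h⟩

section frame

variable {k d : ℕ} {a v : E (d + 1)} {b : Fin k → E (d + 1)}
  {Γ : E (d + 1) ≃ᵐ ℝ × (Fin d → ℝ)} {R : E (d + 1) ≃ₗᵢ[ℝ] E (d + 1)}

theorem inner_frame (hR : R v = EuclideanSpace.single 0 ‖v‖) (w : E (d + 1)) :
    inner ℝ v w = ‖v‖ * (R w) 0 := by
  rw [← R.inner_map_map, hR, EuclideanSpace.inner_single_left]
  simp

theorem frame_Psi (hΓ : ∀ w, Γ w = ((R w) 0, fun i => (R w) (Fin.succ i)))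
    (hR : R v = EuclideanSpace.single 0 ‖v‖) (l : ℝ) (y : Y k) :
    Γ (Psi a v b l y) = ((R (hor a b y)) 0 + l * y.1.2 * ‖v‖,
      fun i => (R (hor a b y)) (Fin.succ i)) := by
  rw [hΓ]
  unfold Psi
  rw [map_add, map_smul, hR]
  refine Prod.ext ?_ ?_
  · simp
  · funext i
    simp

theorem frame_Bm (hΓ : ∀ w, Γ w = ((R w) 0, fun i => (R w) (Fin.succ i)))
    (hR : R v = EuclideanSpace.single 0 ‖v‖) (hv : v ≠ 0) (y : Y k) :
    Γ (Bm a v b y) = (y.1.2 * ‖v‖, fun i => (R (hor a b y)) (Fin.succ i)) := by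
  rw [hΓ]
  unfold Bm
  rw [map_add, map_sub, map_smul, map_smul, hR, inner_frame hR]
  have hv' : ‖v‖ ≠ 0 := norm_ne_zero_iff.2 hv
  refine Prod.ext ?_ ?_
  · simp
    field_simp
    ring
  · funext i
    simp

end frame

/-- lower bound for symmetric convex sets -/
theorem lower {k d : ℕ} {a v : E (d + 1)} {b : Fin k → E (d + 1)} (hv : v ≠ 0) {M : Set (Y k)}
    (hM : IsCompact M) (hMc : Convex ℝ M) (hMs : ∀ y ∈ M, ((y.1.1, -y.1.2), y.2) ∈ M)
    {l : ℝ} (hl : 0 ≤ l) :
    ENNReal.ofReal l * volume (Bm a v b '' M) ≤ volume (Psi a v b l '' M) := by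
  obtain ⟨Γ, R, hΓm, hΓ, hR⟩ := exists_frame v
  have hv' : 0 < ‖v‖ := norm_pos_iff.2 hv
  rw [vol_fib (Bm_continuous a v b) hM Γ hΓm, vol_fib (Psi_continuous a v b l) hM Γ hΓm,
    ← lintegral_const_mul' _ _ ENNReal.ofReal_ne_top]
  refine lintegral_mono fun z => ?_
  let C : Set (Y k) := M ∩ {y | (fun i => (R (hor a b y)) (Fin.succ i)) = z}
  have hCc : IsCompact C := by
    refine hM.inter_right (isClosed_eq ?_ continuous_const)
    have := hor_continuous a b
    fun_prop
  rcases C.eq_empty_or_nonempty with hC | hC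
  · have : {t : ℝ | ∃ y ∈ M, Γ (Bm a v b y) = (t, z)} = ∅ := by
      rw [Set.eq_empty_iff_forall_notMem]
      rintro t ⟨y, hy, h⟩
      rw [frame_Bm hΓ hR hv] at h
      have : y ∈ C := ⟨hy, (Prod.ext_iff.1 h).2⟩
      rw [hC] at this
      exact this
    rw [this]
    simp
  · obtain ⟨y₀, hy₀, hmax⟩ := hCc.exists_isMaxOn hC
      (f := fun y : Y k => |y.1.2|) (by fun_prop)
    set m := |y₀.1.2| with hm
    have h1 : {t : ℝ | ∃ y ∈ M, Γ (Bm a v b y) = (t, z)} ⊆ Icc (-(m * ‖v‖)) (m * ‖v‖) := by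
      rintro t ⟨y, hy, h⟩
      rw [frame_Bm hΓ hR hv] at h
      have h2 : |y.1.2| ≤ m := hmax (show y ∈ C from ⟨hy, (Prod.ext_iff.1 h).2⟩)
      have h3 : y.1.2 * ‖v‖ = t := (Prod.ext_iff.1 h).1
      rw [← h3]
      rw [abs_le] at h2
      constructor <;> nlinarith [h2.1, h2.2]
    set r₀ := (R (hor a b y₀)) 0 with hr₀
    have h4 : Icc (r₀ - l * (m * ‖v‖)) (r₀ + l * (m * ‖v‖)) ⊆
        {t : ℝ | ∃ y ∈ M, Γ (Psi a v b l y) = (t, z)} := by
      intro t ht
      -- the point of the vertical segment through `y₀`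
      have hseg : ∀ s : ℝ, |s| ≤ m → ((y₀.1.1, s), y₀.2) ∈ M := by
        intro s hs
        have hy1 : ((y₀.1.1, m), y₀.2) ∈ M := by
          rcases abs_cases y₀.1.2 with h | h
          · rw [hm, h.1]; exact hy₀.1
          · rw [hm, h.1]; exact hMs _ hy₀.1
        have hy2 : ((y₀.1.1, -m), y₀.2) ∈ M := hMs _ hy1
        rcases eq_or_ne m 0 with h0 | h0
        · have : s = 0 := by
            rw [h0] at hs
            exact abs_eq_zero.1 (le_antisymm hs (abs_nonneg _))
          rw [this]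
          rw [h0] at hy1
          exact hy1
        · have hm0 : 0 < m := lt_of_le_of_ne (abs_nonneg _) (Ne.symm h0)
          rw [abs_le] at hs
          have := hMc hy2 hy1 (a := (m - s) / (2 * m)) (b := (m + s) / (2 * m))
            (div_nonneg (by linarith) (by linarith)) (div_nonneg (by linarith) (by linarith))
            (by field_simp; ring)
          convert this using 1
          refine Prod.ext (Prod.ext ?_ ?_) ?_
          · simp
            field_simp
            ring
          · simp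
            field_simp
            ring
          · funext i
            simp
            field_simp
            ring
      rcases eq_or_ne l 0 with h0 | h0
      · rw [h0] at ht
        simp only [zero_mul, sub_zero, add_zero, Set.Icc_self, Set.mem_singleton_iff] at ht
        refine ⟨y₀, hy₀.1, ?_⟩
        rw [frame_Psi hΓ hR, h0, ht]
        refine Prod.ext ?_ hy₀.2
        simp [hr₀]
      · have hl0 : 0 < l := lt_of_le_of_ne hl (Ne.symm h0)
        have hlv : 0 < l * ‖v‖ := by positivity
        refine ⟨((y₀.1.1, (t - r₀) / (l * ‖v‖)), y₀.2), hseg _ ?_, ?_⟩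
        · rw [abs_div, abs_of_pos hlv, div_le_iff₀ hlv, abs_le]
          constructor <;> nlinarith [ht.1, ht.2]
        · rw [frame_Psi hΓ hR]
          refine Prod.ext ?_ ?_
          · have : hor a b ((y₀.1.1, (t - r₀) / (l * ‖v‖)), y₀.2) = hor a b y₀ := rfl
            rw [this]
            change r₀ + l * ((t - r₀) / (l * ‖v‖)) * ‖v‖ = t
            field_simp
            ring
          · exact hy₀.2
    calc ENNReal.ofReal l * volume {t : ℝ | ∃ y ∈ M, Γ (Bm a v b y) = (t, z)}
        ≤ ENNReal.ofReal l * volume (Icc (-(m * ‖v‖)) (m * ‖v‖)) := by gcongr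
      _ = volume (Icc (r₀ - l * (m * ‖v‖)) (r₀ + l * (m * ‖v‖))) := by
          rw [Real.volume_Icc, Real.volume_Icc, ← ENNReal.ofReal_mul hl]
          congr 1
          ring
      _ ≤ _ := measure_mono h4

/-- upper bound -/
theorem upper {k d : ℕ} {a v : E (d + 1)} {b : Fin k → E (d + 1)} (hv : v ≠ 0) {X M : Set (Y k)}
    (hX : IsCompact X) (hM : IsCompact M) (hMc : Convex ℝ M)
    (hMs : ∀ y ∈ M, ((y.1.1, -y.1.2), y.2) ∈ M) (lo : ℝ → ℝ)
    (hlo : ∀ t : ℝ, 0 ≤ t → ∀ y ∈ X, (∀ s : ℝ, ((y.1.1, s), y.2) ∈ M → 2 * |s| ≤ t) →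
      lo t ≤ y.1.2 ∧ y.1.2 ≤ lo t + t)
    {l : ℝ} (hl : 0 ≤ l) {r : ℝ} (hr : 0 ≤ r) (hXr : ∀ y ∈ X, ‖hor a b y‖ ≤ r) :
    volume (Psi a v b l '' X) ≤ ENNReal.ofReal l * volume (Bm a v b '' M) +
      ENNReal.ofReal (2 * r) * ENNReal.ofReal (2 * r) ^ d := by
  obtain ⟨Γ, R, hΓm, hΓ, hR⟩ := exists_frame v
  have hv' : 0 < ‖v‖ := norm_pos_iff.2 hv
  rw [vol_fib (Bm_continuous a v b) hM Γ hΓm, vol_fib (Psi_continuous a v b l) hX Γ hΓm,
    ← lintegral_const_mul' _ _ ENNReal.ofReal_ne_top]
  have hcube : ENNReal.ofReal (2 * r) * ENNReal.ofReal (2 * r) ^ d =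
      ∫⁻ z : Fin d → ℝ, (Icc (fun _ => -r) (fun _ => r)).indicator
        (fun _ => ENNReal.ofReal (2 * r)) z := by
    rw [lintegral_indicator_const measurableSet_Icc, Real.volume_Icc_pi]
    simp only [sub_neg_eq_add, Finset.prod_const, Finset.card_univ, Fintype.card_fin]
    rw [← two_mul]
  rw [hcube, ← lintegral_add_right _ (measurable_const.indicator measurableSet_Icc)]
  refine lintegral_mono fun z => ?_
  rcases (X ∩ {y | (fun i => (R (hor a b y)) (Fin.succ i)) = z}).eq_empty_or_nonempty with hD | hD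
  · have : {t : ℝ | ∃ y ∈ X, Γ (Psi a v b l y) = (t, z)} = ∅ := by
      rw [Set.eq_empty_iff_forall_notMem]
      rintro t ⟨y, hy, h⟩
      rw [frame_Psi hΓ hR] at h
      have : y ∈ X ∩ {y | (fun i => (R (hor a b y)) (Fin.succ i)) = z} :=
        ⟨hy, (Prod.ext_iff.1 h).2⟩
      rw [hD] at this
      exact this
    rw [this]
    simp
  · obtain ⟨y₁, hy₁X, hy₁z⟩ := hD
    have hz : z ∈ Icc (fun _ : Fin d => -r) (fun _ => r) := by
      rw [← (show (fun i => (R (hor a b y₁)) (Fin.succ i)) = z from hy₁z)]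
      have h1 : ∀ i : Fin d, |(R (hor a b y₁)) (Fin.succ i)| ≤ r := fun i => by
        refine le_trans ?_ (hXr y₁ hy₁X)
        rw [← R.norm_map, ← Real.norm_eq_abs]
        exact PiLp.norm_apply_le _ _
      constructor
      · intro i
        exact (abs_le.1 (h1 i)).1
      · intro i
        exact (abs_le.1 (h1 i)).2
    rw [Set.indicator_of_mem hz]
    let C : Set (Y k) := M ∩ {y | (fun i => (R (hor a b y)) (Fin.succ i)) = z}
    have hCc : IsCompact C := by
      refine hM.inter_right (isClosed_eq ?_ continuous_const)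
      have := hor_continuous a b
      fun_prop
    -- the height of the fibre
    obtain ⟨m, hm0, hm1, hm2⟩ : ∃ m : ℝ, 0 ≤ m ∧ (∀ y ∈ C, |y.1.2| ≤ m) ∧
        ENNReal.ofReal (2 * m * ‖v‖) ≤ volume {t : ℝ | ∃ y ∈ M, Γ (Bm a v b y) = (t, z)} := by
      rcases C.eq_empty_or_nonempty with hC | hC
      · refine ⟨0, le_rfl, ?_, ?_⟩
        · rw [hC]; simp
        · simp
      · obtain ⟨y₀, hy₀, hmax⟩ := hCc.exists_isMaxOn hC
          (f := fun y : Y k => |y.1.2|) (by fun_prop)
        refine ⟨|y₀.1.2|, abs_nonneg _, fun y hy => hmax hy, ?_⟩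
        set m := |y₀.1.2| with hm
        have h5 : Icc (-(m * ‖v‖)) (m * ‖v‖) ⊆
            {t : ℝ | ∃ y ∈ M, Γ (Bm a v b y) = (t, z)} := by
          intro t ht
          have hseg : ∀ s : ℝ, |s| ≤ m → ((y₀.1.1, s), y₀.2) ∈ M := by
            intro s hs
            have hy1 : ((y₀.1.1, m), y₀.2) ∈ M := by
              rcases abs_cases y₀.1.2 with h | h
              · rw [hm, h.1]; exact hy₀.1
              · rw [hm, h.1]; exact hMs _ hy₀.1
            have hy2 : ((y₀.1.1, -m), y₀.2) ∈ M := hMs _ hy1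
            rcases eq_or_ne m 0 with h0 | h0
            · have : s = 0 := by
                rw [h0] at hs
                exact abs_eq_zero.1 (le_antisymm hs (abs_nonneg _))
              rw [this]
              rw [h0] at hy1
              exact hy1
            · have hm0 : 0 < m := lt_of_le_of_ne (abs_nonneg _) (Ne.symm h0)
              rw [abs_le] at hs
              have := hMc hy2 hy1 (a := (m - s) / (2 * m)) (b := (m + s) / (2 * m))
                (div_nonneg (by linarith) (by linarith)) (div_nonneg (by linarith) (by linarith))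
                (by field_simp; ring)
              convert this using 1
              refine Prod.ext (Prod.ext ?_ ?_) ?_
              · simp
                field_simp
                ring
              · simp
                field_simp
                ring
              · funext i
                simp
                field_simp
                ring
          refine ⟨((y₀.1.1, t / ‖v‖), y₀.2), hseg _ ?_, ?_⟩
          · rw [abs_div, abs_of_pos hv', div_le_iff₀ hv', abs_le]
            exact ht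
          · rw [frame_Bm hΓ hR hv]
            refine Prod.ext ?_ hy₀.2
            change t / ‖v‖ * ‖v‖ = t
            field_simp
        refine le_trans (le_of_eq ?_) (measure_mono h5)
        rw [Real.volume_Icc]
        congr 1
        ring
    have h6 : {t : ℝ | ∃ y ∈ X, Γ (Psi a v b l y) = (t, z)} ⊆
        Icc (-r + l * lo (2 * m) * ‖v‖) (r + l * (lo (2 * m) + 2 * m) * ‖v‖) := by
      rintro t ⟨y, hy, h⟩
      rw [frame_Psi hΓ hR] at h
      have h7 : (R (hor a b y)) 0 + l * y.1.2 * ‖v‖ = t := (Prod.ext_iff.1 h).1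
      have h8 : |(R (hor a b y)) 0| ≤ r := by
        refine le_trans ?_ (hXr y hy)
        rw [← R.norm_map, ← Real.norm_eq_abs]
        exact PiLp.norm_apply_le _ _
      have h9 := hlo (2 * m) (by linarith) y hy (fun s hs => by
        have := hm1 ((y.1.1, s), y.2) ⟨hs, (Prod.ext_iff.1 h).2⟩
        simp only at this
        linarith)
      have h10 : 0 ≤ l * ‖v‖ := by positivity
      rw [← h7]
      rw [abs_le] at h8
      constructor
      · nlinarith [h8.1, mul_le_mul_of_nonneg_left h9.1 h10]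
      · nlinarith [h8.2, mul_le_mul_of_nonneg_left h9.2 h10]
    calc volume {t : ℝ | ∃ y ∈ X, Γ (Psi a v b l y) = (t, z)}
        ≤ volume (Icc (-r + l * lo (2 * m) * ‖v‖) (r + l * (lo (2 * m) + 2 * m) * ‖v‖)) :=
          measure_mono h6
      _ = ENNReal.ofReal l * ENNReal.ofReal (2 * m * ‖v‖) + ENNReal.ofReal (2 * r) := by
          rw [Real.volume_Icc, ← ENNReal.ofReal_mul hl, ← ENNReal.ofReal_add (by positivity)
            (by positivity)]
          congr 1
          ring
      _ ≤ _ := by gcongr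

end Pool.Agent.Y513.SG
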