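import Pool.Agent.Y513.SG.Ext

/-!
The limit functional of a nonnegative combination of intrinsic volumes.
-/

namespace Pool.Agent.Y513.SG

open MeasureTheory Module Set Filter Topology
open scoped ENNReal
open Pool.Agent.Results.MP_b62b68_gt.NoSymmetrization
open Pool.Agent.W570.Sym (exists_frame Phi Phi_apply Phi_continuous cc Sy err err_ne_top Fr FrH NC
  dia Phi_injective star_Phi refl_Phi cu Th Th_apply V_translate V_plate)

theorem sum_lt {ι : Type} {s : Finset ι} {f g : ι → ℝ≥0∞} (hle : ∀ i ∈ s, f i ≤ g i) {i₀ : ι}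
    (hi₀ : i₀ ∈ s) (hlt : f i₀ < g i₀) (hfin : ∀ i ∈ s, f i ≠ ∞) :
    ∑ i ∈ s, f i < ∑ i ∈ s, g i := by
  classical
  rw [← Finset.add_sum_erase s f hi₀, ← Finset.add_sum_erase s g hi₀]
  refine ENNReal.add_lt_add_of_lt_of_le ?_ hlt ?_
  · exact ENNReal.sum_ne_top.2 fun i hi => hfin i (Finset.mem_of_mem_erase hi)
  · exact Finset.sum_le_sum fun i hi => hle i (Finset.mem_of_mem_erase hi)

/-- A vertical cylinder. -/
def Wc {k : ℕ} (X : Set (ℝ × (Fin k → ℝ))) (s : ℝ) : Set (Y k) :=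
  {y | (y.1.1, y.2) ∈ X ∧ |y.1.2| ≤ s}

theorem Wc_sy {k : ℕ} {X : Set (ℝ × (Fin k → ℝ))} (hX : IsCompact X) (hXc : Convex ℝ X) (s : ℝ) :
    Sy (Wc X s) where
  compact := by
    have h1 : IsCompact (X ×ˢ Icc (-s) s) := hX.prod isCompact_Icc
    have h2 : Continuous (fun z : (ℝ × (Fin k → ℝ)) × ℝ => (((z.1.1, z.2), z.1.2) : Y k)) := by
      fun_prop
    convert h1.image h2 using 1
    ext y
    constructor
    · rintro ⟨h3, h4⟩
      exact ⟨((y.1.1, y.2), y.1.2), ⟨h3, abs_le.1 h4⟩, rfl⟩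
    · rintro ⟨z, ⟨h3, h4⟩, rfl⟩
      exact ⟨h3, abs_le.2 h4⟩
  convex := by
    rintro y ⟨h1, h2⟩ z ⟨g1, g2⟩ p q hp hq hpq
    refine ⟨hXc h1 g1 hp hq hpq, ?_⟩
    simp only [Prod.fst_add, Prod.smul_fst, Prod.snd_add, Prod.smul_snd, smul_eq_mul]
    calc |p * y.1.2 + q * z.1.2| ≤ |p * y.1.2| + |q * z.1.2| := abs_add_le _ _
      _ = p * |y.1.2| + q * |z.1.2| := by rw [abs_mul, abs_mul, abs_of_nonneg hp, abs_of_nonneg hq]
      _ ≤ p * s + q * s := by gcongr
      _ = s := by rw [← add_mul, hpq, one_mul]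
  symm := by
    rintro y ⟨h1, h2⟩
    exact ⟨h1, by simpa using h2⟩

theorem vol_Wc {k d : ℕ} {a v : E (d + 1)} {b : Fin k → E (d + 1)} (hv : v ≠ 0)
    {X : Set (ℝ × (Fin k → ℝ))} (hX : IsCompact X) (hXc : Convex ℝ X) {s : ℝ} (hs : 0 ≤ s) :
    volume (Bm a v b '' Wc X s) = ENNReal.ofReal (2 * s) * volume (Bm a v b '' Wc X (1 / 2)) := by
  obtain ⟨Γ, R, hΓm, hΓ, hR⟩ := exists_frame v
  have hv' : 0 < ‖v‖ := norm_pos_iff.2 hv
  let Z : Set (Fin d → ℝ) := {z | ∃ x ∈ X, (fun i => (R (hor a b ((x.1, 0), x.2))) (Fin.succ i)) = z}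
  have key : ∀ s : ℝ, 0 ≤ s → volume (Bm a v b '' Wc X s) =
      ENNReal.ofReal (2 * s) * ∫⁻ z : Fin d → ℝ, Z.indicator (fun _ => ENNReal.ofReal ‖v‖) z := by
    intro s hs
    rw [vol_fib (Bm_continuous a v b) (Wc_sy hX hXc s).compact Γ hΓm,
      ← lintegral_const_mul' _ _ ENNReal.ofReal_ne_top]
    refine lintegral_congr fun z => ?_
    by_cases hz : z ∈ Z
    · rw [Set.indicator_of_mem hz]
      have h1 : {t : ℝ | ∃ y ∈ Wc X s, Γ (Bm a v b y) = (t, z)} = Icc (-(s * ‖v‖)) (s * ‖v‖) := by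
        ext t
        constructor
        · rintro ⟨y, ⟨-, hy⟩, h⟩
          rw [frame_Bm hΓ hR hv] at h
          have h3 : y.1.2 * ‖v‖ = t := (Prod.ext_iff.1 h).1
          rw [← h3]
          rw [abs_le] at hy
          constructor <;> nlinarith [hy.1, hy.2]
        · intro ht
          obtain ⟨x, hx, hxz⟩ := hz
          refine ⟨((x.1, t / ‖v‖), x.2), ⟨hx, ?_⟩, ?_⟩
          · simp only
            rw [abs_div, abs_of_pos hv', div_le_iff₀ hv', abs_le]
            exact ht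
          · rw [frame_Bm hΓ hR hv]
            refine Prod.ext ?_ hxz
            change t / ‖v‖ * ‖v‖ = t
            field_simp
      rw [h1, Real.volume_Icc, ← ENNReal.ofReal_mul (by positivity)]
      congr 1
      ring
    · rw [Set.indicator_of_notMem hz]
      have h1 : {t : ℝ | ∃ y ∈ Wc X s, Γ (Bm a v b y) = (t, z)} = ∅ := by
        rw [Set.eq_empty_iff_forall_notMem]
        rintro t ⟨y, ⟨hy, -⟩, h⟩
        rw [frame_Bm hΓ hR hv] at h
        exact hz ⟨_, hy, (Prod.ext_iff.1 h).2⟩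
      rw [h1]
      simp
  rw [key s hs, key (1 / 2) (by norm_num)]
  norm_num

section T

variable {n k d : ℕ} (hj : d + 1 ≤ n) (a u : E n) (b : Fin k → E n)

theorem T_mono {M M' : Set (Y k)} (h : M ⊆ M') : T hj a u b M ≤ T hj a u b M' := by
  unfold T
  refine lintegral_mono fun g => ?_
  unfold tau
  exact Set.indicator_le_indicator (measure_mono (Set.image_mono h))

theorem T_Wc {X : Set (ℝ × (Fin k → ℝ))} (hX : IsCompact X) (hXc : Convex ℝ X) {s : ℝ}
    (hs : 0 ≤ s) : T hj a u b (Wc X s) = ENNReal.ofReal (2 * s) * T hj a u b (Wc X (1 / 2)) := by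
  unfold T
  rw [← lintegral_const_mul' _ _ ENNReal.ofReal_ne_top]
  refine lintegral_congr fun g => ?_
  unfold tau
  by_cases hv : A n (d + 1) hj g u ≠ 0
  · rw [Set.indicator_of_mem (show g ∈ {g : O n | A n (d + 1) hj g u ≠ 0} from hv),
      Set.indicator_of_mem (show g ∈ {g : O n | A n (d + 1) hj g u ≠ 0} from hv)]
    exact vol_Wc hv hX hXc hs
  · rw [Set.indicator_of_notMem (show g ∉ {g : O n | A n (d + 1) hj g u ≠ 0} from hv),
      Set.indicator_of_notMem (show g ∉ {g : O n | A n (d + 1) hj g u ≠ 0} from hv)]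
    simp

theorem T_iInter {M : ℕ → Set (Y k)} (hM : ∀ m, Sy (M m)) (hanti : Antitone M) :
    T hj a u b (⋂ m, M m) = ⨅ m, T hj a u b (M m) := by
  have h1 : ∀ g : O n, tau hj a u b (⋂ m, M m) g = ⨅ m, tau hj a u b (M m) g := by
    intro g
    unfold tau
    by_cases hv : A n (d + 1) hj g u ≠ 0
    · simp only [Set.indicator_of_mem (show g ∈ {g : O n | A n (d + 1) hj g u ≠ 0} from hv)]
      set B := Bm (A n (d + 1) hj g a) (A n (d + 1) hj g u) (fun i => A n (d + 1) hj g (b i))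
        with hB
      have hBc : Continuous B := Bm_continuous _ _ _
      have h2 : B '' (⋂ m, M m) = ⋂ m, B '' (M m) := by
        refine (Set.image_iInter_subset _ _).antisymm ?_
        intro y hy
        rw [Set.mem_iInter] at hy
        have h3 : (⋂ m, (M m ∩ B ⁻¹' {y})).Nonempty := by
          refine IsCompact.nonempty_iInter_of_sequence_nonempty_isCompact_isClosed _ ?_ ?_ ?_ ?_
          · intro m
            exact Set.inter_subset_inter_left _ (hanti (Nat.le_succ m))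
          · intro m
            obtain ⟨x, hx, hxy⟩ := hy m
            exact ⟨x, hx, hxy⟩
          · exact (hM 0).compact.inter_right (isClosed_singleton.preimage hBc)
          · intro m
            exact (hM m).compact.isClosed.inter (isClosed_singleton.preimage hBc)
        obtain ⟨x, hx⟩ := h3
        rw [Set.mem_iInter] at hx
        exact ⟨x, Set.mem_iInter.2 fun m => (hx m).1, (hx 0).2⟩
      rw [h2]
      refine Antitone.measure_iInter ?_ ?_ ?_
      · intro a b hab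
        exact Set.image_mono (hanti hab)
      · intro m
        exact ((hM m).compact.image hBc).isClosed.measurableSet.nullMeasurableSet
      · exact ⟨0, ((hM 0).compact.image hBc).measure_lt_top.ne⟩
    · simp only [Set.indicator_of_notMem (show g ∉ {g : O n | A n (d + 1) hj g u ≠ 0} from hv)]
      simp
  unfold T
  simp only [h1]
  rw [lintegral_iInf (fun m => tau_measurable hj a u b (hM m)) ?_ (T_lt_top hj a u b (hM 0)).ne]
  intro p q hpq g
  unfold tau
  exact Set.indicator_le_indicator (measure_mono (Set.image_mono (hanti hpq)))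

end T

section G

variable {n k : ℕ} {c : ℕ → ℝ≥0∞} {a u : E n} {b : Fin k → E n}

theorem F_eq (K : Set (E n)) : F n c K = ∑ i : Fin n, c i * V n (i + 1) K :=
  Finset.sum_range _

/-- The limit functional of `F`. -/
noncomputable def G (c : ℕ → ℝ≥0∞) (a u : E n) (b : Fin k → E n) (M : Set (Y k)) : ℝ≥0∞ :=
  ∑ i : Fin n, c i * (cc n i * T (show (i : ℕ) + 1 ≤ n from i.2) a u b M)

/-- The error term. -/
noncomputable def Err (n : ℕ) (c : ℕ → ℝ≥0∞) (r : ℝ) : ℝ≥0∞ :=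
  ∑ i : Fin n, c i * (cc n i * err i r)

theorem cc_ne_zero (i : ℕ) : cc n i ≠ 0 :=
  const_ne_zero n (i + 1)

theorem cc_ne_top {i : ℕ} (hi : i + 1 ≤ n) : cc n i ≠ ∞ := const_ne_top hi

theorem Err_ne_top (hc : ∀ i, c i ≠ ∞) (r : ℝ) : Err n c r ≠ ∞ :=
  ENNReal.sum_ne_top.2 fun i _ =>
    ENNReal.mul_ne_top (hc i) (ENNReal.mul_ne_top (cc_ne_top i.2) (err_ne_top i r))

theorem G_lower {M : Set (Y k)} (hM : Sy M) {l : ℝ} (hl : 0 ≤ l) :
    ENNReal.ofReal l * G c a u b M ≤ F n c (Phi a u b l '' M) := by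
  rw [F_eq, G, Finset.mul_sum]
  refine Finset.sum_le_sum fun i _ => ?_
  calc ENNReal.ofReal l * (c i * (cc n i * T (show (i : ℕ) + 1 ≤ n from i.2) a u b M))
      = c i * (cc n i * (ENNReal.ofReal l * T (show (i : ℕ) + 1 ≤ n from i.2) a u b M)) := by ring
    _ ≤ _ := mul_le_mul_right (V_lower _ a u b hM hl) _

theorem G_upper {X M : Set (Y k)} (hX : IsCompact X) (hM : Sy M) (lo : ℝ → ℝ)
    (hlo : ∀ t : ℝ, 0 ≤ t → ∀ y ∈ X, (∀ s : ℝ, ((y.1.1, s), y.2) ∈ M → 2 * |s| ≤ t) →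
      lo t ≤ y.1.2 ∧ y.1.2 ≤ lo t + t)
    {l : ℝ} (hl : 0 ≤ l) {r : ℝ} (hr : 0 ≤ r) (hXr : ∀ y ∈ X, ‖Phi a u b 0 y‖ ≤ r) :
    F n c (Phi a u b l '' X) ≤ ENNReal.ofReal l * G c a u b M + Err n c r := by
  rw [F_eq, G, Err, Finset.mul_sum, ← Finset.sum_add_distrib]
  refine Finset.sum_le_sum fun i _ => ?_
  refine (mul_le_mul_right (V_upper (show (i : ℕ) + 1 ≤ n from i.2) a u b hX hM lo hlo hl hr hXr)
    (c i)).trans (le_of_eq ?_)
  ring

theorem G_upper' {M : Set (Y k)} (hM : Sy M) {l : ℝ} (hl : 0 ≤ l) {r : ℝ} (hr : 0 ≤ r)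
    (hXr : ∀ y ∈ M, ‖Phi a u b 0 y‖ ≤ r) :
    F n c (Phi a u b l '' M) ≤ ENNReal.ofReal l * G c a u b M + Err n c r := by
  refine G_upper hM.compact hM (fun t => -(t / 2)) (fun t ht y hy h => ?_) hl hr hXr
  have h2 := h y.1.2 hy
  have h3 := abs_le.1 (show |y.1.2| ≤ t / 2 by linarith)
  constructor <;> linarith [h3.1, h3.2]

theorem exists_rad {X : Set (Y k)} (hX : IsCompact X) :
    ∃ r : ℝ, 0 ≤ r ∧ ∀ y ∈ X, ‖Phi a u b 0 y‖ ≤ r := by
  obtain ⟨r, hr⟩ := (hX.image (Phi_continuous a u b 0)).isBounded.subset_closedBall 0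
  refine ⟨max r 0, le_max_right _ _, fun y hy => ?_⟩
  have := hr ⟨y, hy, rfl⟩
  rw [mem_closedBall_zero_iff] at this
  exact this.trans (le_max_left _ _)

theorem G_lt_top (hc : ∀ i, c i ≠ ∞) {M : Set (Y k)} (hM : Sy M) : G c a u b M < ∞ :=
  ENNReal.sum_lt_top.2 fun i _ =>
    ENNReal.mul_lt_top (hc i).lt_top (ENNReal.mul_lt_top (cc_ne_top i.2).lt_top
      (T_lt_top _ a u b hM))

theorem G_mono {M M' : Set (Y k)} (h : M ⊆ M') : G c a u b M ≤ G c a u b M' :=
  Finset.sum_le_sum fun i _ => mul_le_mul_right (mul_le_mul_right (T_mono _ a u b h) _) _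

theorem G_Wc {X : Set (ℝ × (Fin k → ℝ))} (hX : IsCompact X) (hXc : Convex ℝ X) {s : ℝ}
    (hs : 0 ≤ s) : G c a u b (Wc X s) = ENNReal.ofReal (2 * s) * G c a u b (Wc X (1 / 2)) := by
  unfold G
  rw [Finset.mul_sum]
  refine Finset.sum_congr rfl fun i _ => ?_
  rw [T_Wc _ a u b hX hXc hs]
  ring

theorem G_tendsto (hc : ∀ i, c i ≠ ∞) {M : ℕ → Set (Y k)} (hM : ∀ m, Sy (M m))
    (hanti : Antitone M) :
    Tendsto (fun m => G c a u b (M m)) atTop (𝓝 (G c a u b (⋂ m, M m))) := by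
  unfold G
  refine tendsto_finsetSum _ fun i _ => ?_
  refine ENNReal.Tendsto.const_mul ?_ (Or.inr (hc i))
  refine ENNReal.Tendsto.const_mul ?_ (Or.inr (cc_ne_top i.2))
  rw [T_iInter _ a u b hM hanti]
  exact tendsto_atTop_iInf fun p q hpq => T_mono _ a u b (hanti hpq)

theorem G_strict (hj : k + 1 ≤ n) (hc : ∀ i, c i ≠ ∞) (hck : c k ≠ 0) {S S' : Set (Y k)}
    (hS : Sy S) (hSS : S ⊆ S')
    (hT : Pool.Agent.W570.Sym.T hj a u b S < Pool.Agent.W570.Sym.T hj a u b S') :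
    G c a u b S < G c a u b S' := by
  unfold G
  refine sum_lt (fun i _ => mul_le_mul_right (mul_le_mul_right (T_mono _ a u b hSS) _) _)
    (i₀ := ⟨k, hj⟩) (Finset.mem_univ _) ?_ ?_
  · rw [ENNReal.mul_lt_mul_iff_right hck (hc k),
      ENNReal.mul_lt_mul_iff_right (cc_ne_zero k) (cc_ne_top hj)]
    exact hT
  · intro i _
    exact ENNReal.mul_ne_top (hc i) (ENNReal.mul_ne_top (cc_ne_top i.2)
      (T_lt_top _ a u b hS).ne)

end G

end Pool.Agent.Y513.SG
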