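import Pool.Agent.Y513.SG.GPlate

/-!
The contradiction for combinations with a middle coefficient.
-/

namespace Pool.Agent.Y513.SG

open MeasureTheory Module Set Filter Topology
open scoped ENNReal
open Pool.Agent.Results.MP_b62b68_gt.NoSymmetrization
open Pool.Agent.W570.Sym (exists_frame Phi Phi_apply Phi_continuous cc Sy err err_ne_top Fr FrH NC
  dia Phi_injective star_Phi refl_Phi cu Th Th_apply Th_cons Z haarZ V_translate V_plate V_rot
  exists_cols Th_V Sp Ht Sp_sy Sp_interior L1 L2 L1_NC L2_NC Ht1 Ht2 Pl Pl_sub1 Pl_sub2 exists_g0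
  T_strict exists_frH)

theorem arch {x y e : ℝ≥0∞} (hxy : x < y) (he : e ≠ ∞) :
    ∀ᶠ m : ℕ in atTop, ENNReal.ofReal (3 * m) * x + e < ENNReal.ofReal (3 * m) * y := by
  obtain ⟨δ, hδ⟩ : ∃ δ, y = x + δ := ⟨y - x, (add_tsub_cancel_of_le hxy.le).symm⟩
  have hδ0 : δ ≠ 0 := by
    rintro rfl
    rw [add_zero] at hδ
    exact hxy.ne hδ.symm
  obtain ⟨N, hN⟩ := ENNReal.exists_nat_mul_gt hδ0 he
  filter_upwards [eventually_ge_atTop N] with m hm
  rw [hδ, mul_add]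
  refine ENNReal.add_lt_add_left (ENNReal.mul_ne_top ENNReal.ofReal_ne_top hxy.ne_top) ?_
  refine hN.trans_le (mul_le_mul_left ?_ δ)
  rw [← ENNReal.ofReal_natCast]
  refine ENNReal.ofReal_le_ofReal ?_
  have h1 : (N : ℝ) ≤ m := by exact_mod_cast hm
  have h0 : (0 : ℝ) ≤ m := Nat.cast_nonneg m
  linarith

variable {n k : ℕ} {c : ℕ → ℝ≥0∞} {H : Submodule ℝ (E n)} {a u : E n} {b : Fin k → E n}
  {D : Set (E n) → Set (E n)}

theorem cu_compact (k : ℕ) : IsCompact (cu k) := isCompact_Icc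

theorem cu_convex (k : ℕ) : Convex ℝ (cu k) := convex_Icc _ _

theorem kappa_pos (hj : k + 1 ≤ n) (hc : ∀ i, c i ≠ ∞) (hck : c k ≠ 0) (h : Fr a u b) :
    0 < G c a u b (Wc ({0} ×ˢ cu k) (1 / 2)) := by
  rw [pos_iff_ne_zero]
  intro h0
  obtain ⟨κ, hκ0, hκt, hκ⟩ := V_plate hj h
  have hsy : Sy (Wc ({0} ×ˢ cu k : Set (ℝ × (Fin k → ℝ))) (1 / 2)) :=
    Wc_sy (isCompact_singleton.prod (cu_compact k)) ((convex_singleton _).prod (cu_convex k)) _
  obtain ⟨r, hr0, hr⟩ := exists_rad (a := a) (u := u) (b := b) hsy.compact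
  have hck' : c k * κ ≠ 0 := mul_ne_zero hck hκ0
  obtain ⟨m, hm⟩ := (arch (x := 0) (pos_iff_ne_zero.2 hck') (Err_ne_top hc r)).and
    (eventually_gt_atTop 0) |>.exists
  obtain ⟨hm, hm0⟩ := hm
  have hm' : (0 : ℝ) < 3 * m := by
    have : (0 : ℝ) < m := by exact_mod_cast hm0
    positivity
  have h1 := G_upper' (c := c) hsy hm'.le hr0 hr
  rw [h0] at h1
  rw [mul_zero, zero_add] at h1 hm
  have h2 : ENNReal.ofReal (3 * m) * (c k * κ) ≤
      F n c (Phi a u b (3 * m) '' Wc ({0} ×ˢ cu k) (1 / 2)) := by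
    have h3 : c k * V n (k + 1) (Phi a u b (3 * m) '' Wc ({0} ×ˢ cu k) (1 / 2)) ≤
        F n c (Phi a u b (3 * m) '' Wc ({0} ×ˢ cu k) (1 / 2)) := by
      unfold F
      exact Finset.single_le_sum
        (f := fun i => c i * V n (i + 1) (Phi a u b (3 * m) '' Wc ({0} ×ˢ cu k) (1 / 2)))
        (fun _ _ => zero_le) (Finset.mem_range.2 hj)
    refine le_trans (le_of_eq ?_) h3
    have h4 : (Wc ({0} ×ˢ cu k : Set (ℝ × (Fin k → ℝ))) (1 / 2)) =
        ({0} ×ˢ Icc (-(1 / 2) : ℝ) (1 / 2)) ×ˢ cu k := by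
      ext y
      constructor
      · rintro ⟨⟨h5, h6⟩, h7⟩
        exact ⟨⟨h5, abs_le.1 h7⟩, h6⟩
      · rintro ⟨⟨h5, h7⟩, h6⟩
        exact ⟨⟨h5, h6⟩, abs_le.2 h7⟩
    rw [h4, hκ _ hm']
    have h5 : volume (cu k) = 1 := by
      change volume (Icc _ _) = 1
      rw [Real.volume_Icc_pi]
      simp
    rw [h5, show (1 / 2 : ℝ) - -(1 / 2) = 1 by norm_num]
    ring_nf
  exact absurd (h2.trans h1) (not_le.2 hm)

theorem Bm_scale {d : ℕ} (a v : E (d + 1)) (b : Fin k → E (d + 1)) (r : ℝ) (M : Set (Y k)) :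
    Bm (r • a) v b '' M = Bm a v b '' ((fun y : Y k => ((r * y.1.1, y.1.2), y.2)) '' M) := by
  rw [Set.image_image]
  refine Set.image_congr fun y _ => ?_
  unfold Bm hor
  simp only [smul_smul, mul_comm]

theorem G_scale (r : ℝ) (M : Set (Y k)) : G c (r • a) u b M =
    G c a u b ((fun y : Y k => ((r * y.1.1, y.1.2), y.2)) '' M) := by
  unfold G
  refine Finset.sum_congr rfl fun i _ => ?_
  congr 2
  unfold T
  refine lintegral_congr fun g => ?_
  unfold tau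
  congr 1
  funext g
  rw [map_smul, Bm_scale]

theorem exists_small (hj : k + 1 ≤ n) (hc : ∀ i, c i ≠ ∞) (hck : c k ≠ 0) (h : Fr a u b) :
    ∃ r : ℝ, r ≠ 0 ∧ G c (r • a) u b (Wc (Icc 0 1 ×ˢ cu k) (1 / 3)) <
      G c a u b (Wc ({0} ×ˢ cu k) (1 / 2)) := by
  let M : ℕ → Set (Y k) := fun m => Wc (Icc 0 (1 / ((m : ℝ) + 1)) ×ˢ cu k) (1 / 3)
  have hM : ∀ m, Sy (M m) := fun m =>
    Wc_sy (isCompact_Icc.prod (cu_compact k)) ((convex_Icc _ _).prod (cu_convex k)) _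
  have hanti : Antitone M := by
    intro m m' hmm
    rintro y ⟨⟨h1, h2⟩, h3⟩
    refine ⟨⟨⟨h1.1, h1.2.trans ?_⟩, h2⟩, h3⟩
    have : (m : ℝ) ≤ m' := by exact_mod_cast hmm
    gcongr
  have hinter : (⋂ m, M m) = Wc ({0} ×ˢ cu k) (1 / 3) := by
    refine Set.Subset.antisymm ?_ ?_
    · intro y hy
      rw [Set.mem_iInter] at hy
      refine ⟨⟨?_, (hy 0).1.2⟩, (hy 0).2⟩
      refine le_antisymm ?_ (hy 0).1.1.1
      exact ge_of_tendsto' tendsto_one_div_add_atTop_nhds_zero_nat fun m => (hy m).1.1.2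
    · rintro y ⟨⟨h1, h2⟩, h3⟩
      rw [Set.mem_iInter]
      intro m
      refine ⟨⟨?_, h2⟩, h3⟩
      simp only [Set.mem_singleton_iff] at h1
      rw [h1]
      exact ⟨le_rfl, by positivity⟩
  have h1 := G_tendsto (a := a) (u := u) (b := b) hc hM hanti
  rw [hinter, G_Wc (isCompact_singleton.prod (cu_compact k))
    ((convex_singleton _).prod (cu_convex k)) (by norm_num)] at h1
  set κ := G c a u b (Wc ({0} ×ˢ cu k) (1 / 2)) with hκ
  have hκ0 : 0 < κ := kappa_pos hj hc hck h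
  have hκt : κ ≠ ∞ := (G_lt_top hc (Wc_sy (isCompact_singleton.prod (cu_compact k))
    ((convex_singleton _).prod (cu_convex k)) _)).ne
  have h2 : ENNReal.ofReal (2 * (1 / 3)) * κ < κ := by
    calc ENNReal.ofReal (2 * (1 / 3)) * κ < 1 * κ := by
          refine ENNReal.mul_lt_mul_left hκ0.ne' hκt ?_
          rw [← ENNReal.ofReal_one, ENNReal.ofReal_lt_ofReal_iff one_pos]
          norm_num
      _ = κ := one_mul κ
  obtain ⟨m, hm⟩ := (h1.eventually (gt_mem_nhds h2)).exists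
  refine ⟨1 / ((m : ℝ) + 1), by positivity, ?_⟩
  rw [G_scale]
  refine lt_of_le_of_lt (G_mono ?_) hm
  rintro _ ⟨y, ⟨⟨h3, h4⟩, h5⟩, rfl⟩
  refine ⟨⟨⟨?_, ?_⟩, h4⟩, h5⟩
  · exact mul_nonneg (by positivity) h3.1
  · have h6 : (0 : ℝ) < 1 / ((m : ℝ) + 1) := by positivity
    have := h3.2
    simp only at this ⊢
    nlinarith

/-- The high point. -/
theorem high_point (hj : k + 1 ≤ n) (hc : ∀ i, c i ≠ ∞) {a' : E n} (h' : Fr a' u b)
    (h : FrH H a u b) (hD : Ext3 H c D)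
    (hβ : G c a u b (Wc (Icc 0 1 ×ˢ cu k) (1 / 3)) < G c a' u b (Wc ({0} ×ˢ cu k) (1 / 2))) :
    ∀ᶠ m : ℕ in atTop, ∃ x ∈ Icc (0 : ℝ) 1, ∃ q ∈ cu k,
      ((x, 1 / 3), q) ∈ dia D a u b (3 * m) (PlQ (cu k)) := by
  have hBo : Sy (Wc (Icc (0 : ℝ) 1 ×ˢ cu k) (1 / 3)) :=
    Wc_sy (isCompact_Icc.prod (cu_compact k)) ((convex_Icc _ _).prod (cu_convex k)) _
  have hW : Sy (Wc ({0} ×ˢ cu k : Set (ℝ × (Fin k → ℝ))) (1 / 2)) :=
    Wc_sy (isCompact_singleton.prod (cu_compact k)) ((convex_singleton _).prod (cu_convex k)) _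
  obtain ⟨r, hr0, hr⟩ := exists_rad (a := a) (u := u) (b := b) hBo.compact
  have hPl : NC (PlQ (cu k)) :=
    PlQ_NC (cu_compact k) (cu_convex k) ⟨0, ⟨le_rfl, fun i => zero_le_one⟩⟩
  filter_upwards [arch hβ (Err_ne_top hc r), eventually_gt_atTop 0] with m hm hm0
  have hl : (0 : ℝ) < 3 * m := by
    have : (0 : ℝ) < m := by exact_mod_cast hm0
    positivity
  have hsy := dia_sy h hD hl hPl
  have hhor : ∀ y ∈ dia D a u b (3 * m) (PlQ (cu k)), y.1.1 ∈ Icc (0 : ℝ) 1 ∧ y.2 ∈ cu k := by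
    intro y hy
    obtain ⟨s, h0, h1, -, h3⟩ := dia_hor h hD hPl hy
    exact ⟨⟨h0, h1⟩, h3⟩
  obtain ⟨y, hy, hys⟩ : ∃ y ∈ dia D a u b (3 * m) (PlQ (cu k)), 1 / 3 ≤ |y.1.2| := by
    by_contra hcon
    push Not at hcon
    have h1 : dia D a u b (3 * m) (PlQ (cu k)) ⊆ Wc (Icc (0 : ℝ) 1 ×ˢ cu k) (1 / 3) := by
      intro y hy
      obtain ⟨h2, h3⟩ := hhor y hy
      exact ⟨⟨h2, h3⟩, (hcon y hy).le⟩
    have h2 : ENNReal.ofReal (3 * m) * G c a' u b (Wc ({0} ×ˢ cu k) (1 / 2)) ≤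
        ENNReal.ofReal (3 * m) * G c a u b (Wc (Icc 0 1 ×ˢ cu k) (1 / 3)) + Err n c r :=
      calc _ ≤ F n c (Phi a' u b (3 * m) '' Wc ({0} ×ˢ cu k) (1 / 2)) := G_lower hW hl.le
        _ ≤ F n c (Phi a u b (3 * m) '' PlQ (cu k)) := F_tilt hj h.toFr a' hl _
        _ = F n c (Phi a u b (3 * m) '' dia D a u b (3 * m) (PlQ (cu k))) :=
            (dia_F h hD hl hPl).symm
        _ ≤ F n c (Phi a u b (3 * m) '' Wc (Icc (0 : ℝ) 1 ×ˢ cu k) (1 / 3)) :=
            F_mono (Set.image_mono h1)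
        _ ≤ _ := G_upper' hBo hl.le hr0 hr
    exact absurd h2 (not_le.2 hm)
  obtain ⟨h1, h2⟩ := hhor y hy
  refine ⟨y.1.1, h1, y.2, h2, hsy.seg hy ?_⟩
  rw [abs_of_pos (by norm_num)]
  exact hys

theorem Sp_sub (hj : k + 1 ≤ n) (hc : ∀ i, c i ≠ ∞) (hck : c k ≠ 0) (h : FrH H a u b)
    (hD : Ext3 H c D) {l : ℝ}
    (hl : 0 < l) {X : Set (Y k)} (hX : NC X) {p : ℝ → ℝ} (hp : Ht p)
    (hin : ∀ x ∈ Icc (0 : ℝ) 1, ∃ α, ∀ q ∈ cu k, ∀ s ∈ Icc α (α + p x), ((x, s), q) ∈ X) :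
    Sp k p ⊆ dia D a u b l X := by
  rintro y ⟨h0, h1, h3⟩
  have hsy := dia_sy h hD hl hX
  let ε : ℕ → ℝ := fun N => 1 / (N + 1)
  let w : ℕ → Y k := fun N => (((1 - ε N) * y.1.1 + ε N * (1 / 2), (1 - ε N) * y.1.2),
    fun i => (1 - ε N) * y.2 i + ε N * (1 / 2))
  have hε0 : ∀ N, 0 < ε N := fun N => by positivity
  have hε1 : ∀ N, ε N ≤ 1 := fun N => by
    change 1 / ((N : ℝ) + 1) ≤ 1
    rw [div_le_one (by positivity)]
    linarith [(Nat.cast_nonneg N : (0 : ℝ) ≤ N)]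
  have hmem : ∀ N, w N ∈ dia D a u b l X := by
    intro N
    have e0 := hε0 N
    have e1 := hε1 N
    have hx : (w N).1.1 ∈ Icc (0 : ℝ) 1 := by
      change (1 - ε N) * y.1.1 + ε N * (1 / 2) ∈ _
      constructor <;> nlinarith [h0.1, h0.2]
    have hpx : p (w N).1.1 = (1 - ε N) * p y.1.1 + ε N * (1 / 2) := by
      change p ((1 - ε N) * y.1.1 + ε N * (1 / 2)) = _
      rw [hp.aff _ _ _ _ (by ring), hp.half]
    have hpos : 0 < p (w N).1.1 := by
      rw [hpx]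
      have := mul_nonneg (sub_nonneg.2 e1) (hp.nonneg _ h0)
      linarith
    have hq : (w N).2 ∈ cu k := by
      constructor
      · intro i
        change 0 ≤ (1 - ε N) * y.2 i + ε N * (1 / 2)
        have := h3.1 i
        simp only [Pi.zero_apply] at this
        nlinarith
      · intro i
        change (1 - ε N) * y.2 i + ε N * (1 / 2) ≤ 1
        have := h3.2 i
        simp only [Pi.one_apply] at this
        nlinarith
    obtain ⟨α, hα⟩ := hin _ hx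
    have := steiner_point hj hc hck h hD hl hX hpos hα hq
    refine hsy.seg this ?_
    change |(1 - ε N) * y.1.2| ≤ |p (w N).1.1 / 2|
    rw [abs_mul, abs_of_nonneg (sub_nonneg.2 e1), abs_of_pos (half_pos hpos), hpx]
    have h6 := mul_le_mul_of_nonneg_left h1 (sub_nonneg.2 e1)
    linarith
  have htend : Tendsto w atTop (𝓝 y) := by
    have hε : Tendsto ε atTop (𝓝 0) := tendsto_one_div_add_atTop_nhds_zero_nat
    have h4 : ∀ c d : ℝ, Tendsto (fun N => (1 - ε N) * c + ε N * d) atTop (𝓝 c) := by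
      intro c d
      have : Tendsto (fun N => (1 - ε N) * c + ε N * d) atTop (𝓝 ((1 - 0) * c + 0 * d)) :=
        ((tendsto_const_nhds.sub hε).mul_const c).add (hε.mul_const d)
      simpa using this
    have h5 : ∀ c : ℝ, Tendsto (fun N => (1 - ε N) * c) atTop (𝓝 c) := by
      intro c
      have := h4 c 0
      simpa using this
    refine Tendsto.prodMk_nhds (Tendsto.prodMk_nhds (h4 _ _) (h5 _)) ?_
    exact tendsto_pi_nhds.2 fun i => h4 _ _
  exact hsy.compact.isClosed.mem_of_tendsto htend (Eventually.of_forall hmem)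

theorem main_case {k : ℕ} {b : Fin (k + 1) → E n} (hj : k + 1 + 1 ≤ n) (hc : ∀ i, c i ≠ ∞)
    (hck : c (k + 1) ≠ 0) (h : FrH H a u b)
    (hD : Ext3 H c D) {X : Set (Y (k + 1))} (hX : NC X) {p : ℝ → ℝ} (hp : Ht p)
    (hin : ∀ x ∈ Icc (0 : ℝ) 1, ∃ α, ∀ q ∈ cu (k + 1), ∀ s ∈ Icc α (α + p x), ((x, s), q) ∈ X)
    (lo : ℝ → ℝ)
    (hlo : ∀ t : ℝ, 0 ≤ t → ∀ y ∈ X, (∀ s : ℝ, ((y.1.1, s), y.2) ∈ Sp (k + 1) p → 2 * |s| ≤ t) →
      lo t ≤ y.1.2 ∧ y.1.2 ≤ lo t + t)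
    {y₀ : Y (k + 1)} (hy₀ : p y₀.1.1 < 2 * |y₀.1.2|) :
    ¬ ∃ᶠ m : ℕ in atTop, y₀ ∈ dia D a u b (3 * m) X := by
  intro hfreq
  let Λ : Set ℕ := {m | 0 < m ∧ y₀ ∈ dia D a u b (3 * m) X}
  have hΛ : ∃ᶠ m : ℕ in atTop, m ∈ Λ :=
    (hfreq.and_eventually (eventually_gt_atTop 0)).mono fun m hm => ⟨hm.2, hm.1⟩
  obtain ⟨m₀, hm₀⟩ := hΛ.exists
  have hpos : ∀ m ∈ Λ, (0 : ℝ) < 3 * m := fun m hm => by
    have : (0 : ℝ) < m := by exact_mod_cast hm.1
    positivity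
  let S' : Set (Y (k + 1)) := ⋂ m : Λ, dia D a u b (3 * (m : ℕ)) X
  have hS'sub : ∀ m ∈ Λ, S' ⊆ dia D a u b (3 * m) X := fun m hm =>
    Set.iInter_subset (fun m : Λ => dia D a u b (3 * (m : ℕ)) X) ⟨m, hm⟩
  have hSy : Sy S' := by
    refine ⟨?_, ?_, ?_⟩
    · refine (dia_sy h hD (hpos m₀ hm₀) hX).compact.of_isClosed_subset ?_ (hS'sub m₀ hm₀)
      exact isClosed_iInter fun m => (dia_sy h hD (hpos m m.2) hX).compact.isClosed
    · exact convex_iInter fun m => (dia_sy h hD (hpos m m.2) hX).convex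
    · intro y hy
      rw [Set.mem_iInter] at hy ⊢
      exact fun m => (dia_sy h hD (hpos m m.2) hX).symm y (hy m)
  have hSp := Sp_sy (k + 1) hp
  have hsub : Sp (k + 1) p ⊆ S' :=
    Set.subset_iInter fun m => Sp_sub hj hc hck h hD (hpos m m.2) hX hp hin
  have hy : y₀ ∈ S' := Set.mem_iInter.2 fun m => m.2.2
  obtain ⟨g₀, hg1, hg2, hg3⟩ := exists_g0 hj h.toFr
  have hT : Pool.Agent.W570.Sym.T hj a u b (Sp (k + 1) p) <
      Pool.Agent.W570.Sym.T hj a u b S' := by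
    refine T_strict hj a u b hSp hSy hsub ((Sp_interior _ hp).mono (interior_mono hsub)) g₀ hg1 hg2
      hy ?_
    rintro ⟨z, ⟨-, hz, -⟩, hzy⟩
    obtain ⟨h1, h2⟩ := hg3 _ _ hzy
    rw [h1, h2] at hz
    linarith
  have hG : G c a u b (Sp (k + 1) p) < G c a u b S' := G_strict hj hc hck hSp hsub hT
  obtain ⟨r, hr0, hr⟩ := exists_rad (a := a) (u := u) (b := b) hX.compact
  obtain ⟨m, hm, hlt⟩ := (hΛ.and_eventually (arch hG (Err_ne_top hc r))).exists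
  have h1 : ENNReal.ofReal (3 * m) * G c a u b S' ≤
      ENNReal.ofReal (3 * m) * G c a u b (Sp (k + 1) p) + Err n c r :=
    calc _ ≤ F n c (Phi a u b (3 * m) '' S') := G_lower hSy (hpos m hm).le
      _ ≤ F n c (Phi a u b (3 * m) '' dia D a u b (3 * m) X) :=
          F_mono (Set.image_mono (hS'sub m hm))
      _ = F n c (Phi a u b (3 * m) '' X) := dia_F h hD (hpos m hm) hX
      _ ≤ _ := G_upper hX.compact hSp lo hlo (hpos m hm).le hr0 hr
  exact absurd h1 (not_le.2 hlt)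

theorem case1 {k : ℕ} {b : Fin (k + 1) → E n} (hj : k + 1 + 1 ≤ n) (hc : ∀ i, c i ≠ ∞)
    (hck : c (k + 1) ≠ 0) (h : FrH H a u b)
    (hD : Ext3 H c D) {y₀ : Y (k + 1)} (hy₀ : y₀.1.1 < 2 * |y₀.1.2|) :
    ¬ ∃ᶠ m : ℕ in atTop, y₀ ∈ dia D a u b (3 * m) (L1 (k + 1)) := by
  refine main_case hj hc hck h hD (L1_NC _) Ht1 ?_ (fun _ => 0) ?_ hy₀
  · intro x hx
    refine ⟨0, fun q hq s hs => ⟨hx.2, hs.1, ?_, hq⟩⟩
    have := hs.2
    simp only [zero_add] at this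
    exact this
  · rintro t ht y ⟨h0, h1, h2, h3⟩ hs
    refine ⟨h1, ?_⟩
    have := hs (y.1.1 / 2) ⟨⟨h1.trans h2, h0⟩, ?_, h3⟩
    · rw [abs_of_nonneg (by linarith)] at this
      linarith
    · simp only
      rw [abs_of_nonneg (by linarith)]
      linarith

theorem case2 {k : ℕ} {b : Fin (k + 1) → E n} (hj : k + 1 + 1 ≤ n) (hc : ∀ i, c i ≠ ∞)
    (hck : c (k + 1) ≠ 0) (h : FrH H a u b)
    (hD : Ext3 H c D) {y₀ : Y (k + 1)} (hy₀ : 1 - y₀.1.1 < 2 * |y₀.1.2|) :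
    ¬ ∃ᶠ m : ℕ in atTop, y₀ ∈ dia D a u b (3 * m) (L2 (k + 1)) := by
  refine main_case hj hc hck h hD (L2_NC _) Ht2 ?_ (fun t => 1 - t) ?_ hy₀
  · intro x hx
    refine ⟨x, fun q hq s hs => ⟨hx.1, hs.1, ?_, hq⟩⟩
    have := hs.2
    simp only at this ⊢
    linarith
  · rintro t ht y ⟨h0, h1, h2, h3⟩ hs
    have := hs ((1 - y.1.1) / 2) ⟨⟨h0, h1.trans h2⟩, ?_, h3⟩
    · rw [abs_of_nonneg (by linarith)] at this
      change 1 - t ≤ y.1.2 ∧ y.1.2 ≤ 1 - t + t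
      constructor <;> linarith
    · simp only
      rw [abs_of_nonneg (by linarith)]
      linarith

/-- The contradiction, for a good frame. -/
theorem contra {k : ℕ} {b : Fin (k + 1) → E n} (hj : k + 1 + 1 ≤ n) (hc : ∀ i, c i ≠ ∞)
    (hck : c (k + 1) ≠ 0) {a' : E n} (h' : Fr a' u b) (h : FrH H a u b)
    (hD : Ext3 H c D)
    (hβ : G c a u b (Wc (Icc 0 1 ×ˢ cu (k + 1)) (1 / 3)) <
      G c a' u b (Wc ({0} ×ˢ cu (k + 1)) (1 / 2))) : False := by
  obtain ⟨m₀, hm₀⟩ := eventually_atTop.1 (high_point hj hc h' h hD hβ)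
  have hhigh := fun m : ℕ => hm₀ (m + m₀) (by omega)
  choose x hx q hq hxq using hhigh
  -- a cluster point
  have hcomp : IsCompact (Icc (0 : ℝ) 1 ×ˢ cu (k + 1)) := isCompact_Icc.prod isCompact_Icc
  obtain ⟨⟨X, Q⟩, ⟨hX, hQ⟩, hcl⟩ := hcomp.exists_mapClusterPt (f := atTop)
    (u := fun m : ℕ => (x m, q m)) (Filter.tendsto_principal.2
      (Eventually.of_forall fun m => ⟨hx m, hq m⟩))
  simp only at hX hQ
  have hfr : ∃ᶠ m : ℕ in atTop, dist (x m, q m) (X, Q) < 1 / 20 :=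
    hcl.frequently (Metric.ball_mem_nhds _ (by norm_num))
  let y₀ : Y (k + 1) := ((11 / 12 * X + 1 / 24, 5 / 18), fun i => 11 / 12 * Q i + 1 / 24)
  have hPlNC : NC (PlQ (cu (k + 1))) :=
    PlQ_NC (cu_compact _) (cu_convex _) ⟨0, ⟨le_rfl, fun i => zero_le_one⟩⟩
  have key : ∀ (p : ℝ → ℝ), Ht p → ∀ W : Set (Y (k + 1)), NC W → PlQ (cu (k + 1)) ⊆ W →
      (∀ x ∈ Icc (0 : ℝ) 1, ∃ α, ∀ q ∈ cu (k + 1), ∀ s ∈ Icc α (α + p x), ((x, s), q) ∈ W) →
      ∃ᶠ m : ℕ in atTop, y₀ ∈ dia D a u b (3 * m) W := by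
    intro p hp W hW hPW hin
    have h1 : ∃ᶠ m : ℕ in atTop, y₀ ∈ dia D a u b (3 * ((m + m₀ : ℕ) : ℝ)) W := by
      refine (hfr.and_eventually (eventually_gt_atTop 0)).mono fun m hm => ?_
      obtain ⟨hm, hmpos⟩ := hm
      have hl : (0 : ℝ) < 3 * ((m + m₀ : ℕ) : ℝ) := by
        have : (0 : ℝ) < ((m + m₀ : ℕ) : ℝ) := by
          exact_mod_cast Nat.add_pos_left hmpos m₀
        positivity
      have hm1 : |x m - X| ≤ 1 / 20 := by
        rw [← Real.dist_eq]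
        exact (le_max_left _ _).trans hm.le
      have hm2 : ∀ i, |q m i - Q i| ≤ 1 / 20 := by
        intro i
        rw [← Real.dist_eq]
        exact (dist_le_pi_dist _ _ i).trans ((le_max_right _ _).trans hm.le)
      have h2 : ((x m, 1 / 3), q m) ∈ dia D a u b (3 * ((m + m₀ : ℕ) : ℝ)) W :=
        dia_mono hD _ hPlNC hW hPW (hxq m)
      have h4 : (((1 / 2 : ℝ) * X + 1 / 4 + 5 * (X - x m), (0 : ℝ)),
          fun i => (1 / 2 : ℝ) * Q i + 1 / 4 + 5 * (Q i - q m i)) ∈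
            dia D a u b (3 * ((m + m₀ : ℕ) : ℝ)) W := by
        refine Sp_sub hj hc hck h hD hl hW hp hin ?_
        have hx0 : (1 / 2 : ℝ) * X + 1 / 4 + 5 * (X - x m) ∈ Icc (0 : ℝ) 1 := by
          rw [abs_le] at hm1
          constructor <;> linarith [hX.1, hX.2, hm1.1, hm1.2]
        refine ⟨hx0, ?_, ?_, ?_⟩
        · simp only [abs_zero, mul_zero]
          exact hp.nonneg _ hx0
        · intro i
          have h5 := abs_le.1 (hm2 i)
          have h6 := hQ.1 i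
          simp only [Pi.zero_apply] at h6 ⊢
          linarith [h5.1, h5.2]
        · intro i
          have h5 := abs_le.1 (hm2 i)
          have h6 := hQ.2 i
          simp only [Pi.one_apply] at h6 ⊢
          linarith [h5.1, h5.2]
      have h5 := (dia_sy h hD hl hW).convex h4 h2 (a := 1 / 6) (b := 5 / 6) (by norm_num)
        (by norm_num) (by norm_num)
      convert h5 using 1
      refine Prod.ext (Prod.ext ?_ ?_) ?_
      · simp only [Prod.fst_add, Prod.smul_fst, smul_eq_mul, y₀]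
        ring
      · simp only [Prod.fst_add, Prod.smul_fst, Prod.snd_add, Prod.smul_snd, smul_eq_mul, y₀]
        norm_num
      · funext i
        simp only [Prod.snd_add, Prod.smul_snd, Pi.add_apply, Pi.smul_apply, smul_eq_mul, y₀]
        ring
    rw [Filter.frequently_atTop] at h1 ⊢
    intro N
    obtain ⟨m, hm, hy⟩ := h1 N
    exact ⟨m + m₀, by omega, hy⟩
  rcases le_total X (1 / 2) with hX2 | hX2
  · refine case1 hj hc hck h hD (y₀ := y₀) ?_ (key _ Ht1 _ (L1_NC _) (Pl_sub1 _) ?_)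
    · simp only [y₀]
      rw [abs_of_pos (by norm_num)]
      linarith
    · intro x hx
      refine ⟨0, fun q hq s hs => ⟨hx.2, hs.1, ?_, hq⟩⟩
      have := hs.2
      simp only [zero_add] at this
      exact this
  · refine case2 hj hc hck h hD (y₀ := y₀) ?_ (key _ Ht2 _ (L2_NC _) (Pl_sub2 _) ?_)
    · simp only [y₀]
      rw [abs_of_pos (by norm_num)]
      linarith
    · intro x hx
      refine ⟨x, fun q hq s hs => ⟨hx.1, hs.1, ?_, hq⟩⟩
      have := hs.2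
      simp only at this ⊢
      linarith

/-- No symmetrization preserves a combination with a middle coefficient. -/
theorem no_ext3 {k : ℕ} (hj : k + 1 + 1 ≤ n) (hc : ∀ i, c i ≠ ∞) (hck : c (k + 1) ≠ 0)
    (H : Submodule ℝ (E n))
    (hH : finrank ℝ H + 1 = n) (hk : k + 2 ≤ finrank ℝ H) {D : Set (E n) → Set (E n)}
    (hD : Ext3 H c D) : False := by
  obtain ⟨a, u, b, h⟩ := exists_frH H hH hk
  obtain ⟨r, hr, hβ⟩ := exists_small hj hc hck h.toFr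
  exact contra hj hc hck h.toFr (h.scale hr) hD hβ

end Pool.Agent.Y513.SG
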