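import Pool.Agent.Y513.SG.GFun

/-!
Plates, the lower bound for the symmetrization and the high point over a tilted plate.
-/

namespace Pool.Agent.Y513.SG

open MeasureTheory Module Set Filter Topology
open scoped ENNReal
open Pool.Agent.Results.MP_b62b68_gt.NoSymmetrization
open Pool.Agent.W570.Sym (exists_frame Phi Phi_apply Phi_continuous cc Sy err err_ne_top Fr FrH NC
  dia Phi_injective star_Phi refl_Phi cu Th Th_apply Th_cons Z haarZ V_translate V_plate V_rot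
  exists_cols Th_V)

/-- Plates in different positions. -/
theorem Th_rot' {n k j : ℕ} (hk : k + 1 ≤ n) (hj : j ≤ n) {w w' : E n} {b : Fin k → E n}
    (hw : ‖w‖ = 1) (hwb : ∀ i, inner ℝ w (b i) = 0) (hw' : ‖w'‖ = 1)
    (hwb' : ∀ i, inner ℝ w' (b i) = 0) (hb : Orthonormal ℝ b) (S : Set (Z k)) :
    V n j (Th w b '' S) = V n j (Th w' b '' S) := by
  have key : ∀ w : E n, ‖w‖ = 1 → (∀ i, inner ℝ w (b i) = 0) →
      ∃ g : O n, ∀ i, col g (Fin.castLE hk i) = (Fin.cons w b : Fin (k + 1) → E n) i := by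
    intro w hw hwb
    refine exists_cols hk ?_
    have hbu : ∀ i, inner ℝ (b i) w = 0 := fun i => by rw [real_inner_comm]; exact hwb i
    have hbb := orthonormal_iff_ite.1 hb
    rw [orthonormal_iff_ite]
    intro i l
    refine Fin.cases ?_ (fun i => ?_) i
    · refine Fin.cases ?_ (fun l => ?_) l
      · simp [hw]
      · simp [hwb, (Fin.succ_ne_zero _).symm]
    · refine Fin.cases ?_ (fun l => ?_) l
      · simp [hbu]
      · simp [hbb]
  obtain ⟨g, hg⟩ := key w hw hwb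
  obtain ⟨g', hg'⟩ := key w' hw' hwb'
  rw [← V_rot hj (g' * g⁻¹) (Th w b '' S), Set.image_image]
  congr 1
  refine Set.image_congr fun z _ => ?_
  rw [Th_cons, Th_cons, map_sum]
  refine Finset.sum_congr rfl fun i _ => ?_
  rw [map_smul, ← hg, ← hg']
  congr 1
  -- `g' g⁻¹` maps the columns of `g` to the columns of `g'`
  have h2 : ∀ m : Fin n, Matrix.toEuclideanLin ((g' * g⁻¹).1) (col g m) = col g' m := by
    intro m
    have h3 : ((g' * g⁻¹ * g).1) = g'.1 := by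
      congr 1
      exact inv_mul_cancel_right g' g
    ext l
    change ∑ p, (g' * g⁻¹).1 l p * g.1 p m = g'.1 l m
    rw [← Matrix.mul_apply]
    exact congrFun (congrFun h3 l) m
  exact h2 _

/-- The tilted plate over `[0, 1] × Q`. -/
def PlQ {k : ℕ} (Q : Set (Fin k → ℝ)) : Set (Y k) :=
  {y | 0 ≤ y.1.1 ∧ y.1.1 ≤ 1 ∧ y.1.2 = y.1.1 ∧ y.2 ∈ Q}

theorem PlQ_NC {k : ℕ} {Q : Set (Fin k → ℝ)} (hQ : IsCompact Q) (hQc : Convex ℝ Q)
    (hQn : Q.Nonempty) : NC (PlQ Q) := by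
  refine ⟨?_, ?_, ?_⟩
  · have h1 : IsCompact (Icc (0 : ℝ) 1 ×ˢ Q) := isCompact_Icc.prod hQ
    have h2 : Continuous (fun z : ℝ × (Fin k → ℝ) => (((z.1, z.1), z.2) : Y k)) := by fun_prop
    convert h1.image h2 using 1
    ext y
    constructor
    · rintro ⟨h0, h1, h2, h3⟩
      refine ⟨(y.1.1, y.2), ⟨⟨h0, h1⟩, h3⟩, ?_⟩
      exact Prod.ext (Prod.ext rfl h2.symm) rfl
    · rintro ⟨z, ⟨h3, h4⟩, rfl⟩
      exact ⟨h3.1, h3.2, rfl, h4⟩
  · rintro y ⟨h0, h1, h2, h3⟩ z ⟨g0, g1, g2, g3⟩ s t hs ht hst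
    refine ⟨?_, ?_, ?_, hQc h3 g3 hs ht hst⟩
    · simp only [Prod.fst_add, Prod.smul_fst, smul_eq_mul]
      positivity
    · simp only [Prod.fst_add, Prod.smul_fst, smul_eq_mul]
      nlinarith
    · simp only [Prod.fst_add, Prod.smul_fst, Prod.snd_add, Prod.smul_snd, smul_eq_mul, h2, g2]
  · obtain ⟨q, hq⟩ := hQn
    exact ⟨((0, 0), q), le_rfl, zero_le_one, rfl, hq⟩

variable {n k : ℕ} {c : ℕ → ℝ≥0∞}

/-- The tilted plate is at least as large as the vertical plate. -/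
theorem V_tilt {j : ℕ} (hk : k + 1 ≤ n) (hj : j ≤ n) {a u : E n} {b : Fin k → E n}
    (h : Fr a u b) (a' : E n) {l : ℝ} (hl : 0 < l) (Q : Set (Fin k → ℝ)) :
    V n j (Phi a' u b l '' Wc ({0} ×ˢ Q) (1 / 2)) ≤ V n j (Phi a u b l '' PlQ Q) := by
  have huu : inner ℝ u u = 1 := by rw [real_inner_self_eq_norm_sq, h.un]; norm_num
  have haa : inner ℝ a a = ‖a‖ ^ 2 := real_inner_self_eq_norm_sq a
  have hau : inner ℝ a u = 0 := by rw [real_inner_comm]; exact h.ua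
  set r : ℝ := √(‖a‖ ^ 2 + l ^ 2) with hr
  have hr1 : l ≤ r := by
    rw [hr]
    apply Real.le_sqrt_of_sq_le
    nlinarith [sq_nonneg ‖a‖]
  have hr0 : 0 < r := hl.trans_le hr1
  let w : E n := r⁻¹ • (a + l • u)
  have hw : ‖w‖ = 1 := by
    have h1 : ‖a + l • u‖ = r := by
      rw [hr, eq_comm, Real.sqrt_eq_iff_mul_self_eq (by positivity) (norm_nonneg _),
        ← real_inner_self_eq_norm_mul_norm]
      simp only [inner_add_left, inner_add_right, inner_smul_left, inner_smul_right, haa, hau,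
        h.ua, huu, conj_trivial]
      ring
    change ‖r⁻¹ • (a + l • u)‖ = 1
    rw [norm_smul, h1, norm_inv, Real.norm_of_nonneg hr0.le, inv_mul_cancel₀ hr0.ne']
  have hwb : ∀ i, inner ℝ w (b i) = 0 := by
    intro i
    change inner ℝ (r⁻¹ • (a + l • u)) (b i) = 0
    rw [inner_smul_left, inner_add_left, inner_smul_left, h.ab, h.ub]
    simp
  have h2 : Phi a u b l '' PlQ Q = Th w b '' (Icc (0 : ℝ) r ×ˢ Q) := by
    ext x
    constructor
    · rintro ⟨y, ⟨h0, h1, h2, h3⟩, rfl⟩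
      refine ⟨(r * y.1.1, y.2), ⟨⟨by positivity, ?_⟩, h3⟩, ?_⟩
      · simp only
        nlinarith
      · rw [Phi_apply, Th_apply]
        simp only [h2, w]
        rw [smul_smul, mul_right_comm, mul_inv_cancel₀ hr0.ne', one_mul, smul_add, smul_smul,
          mul_comm l]
    · rintro ⟨⟨t, q⟩, ⟨⟨ht0, ht1⟩, hq⟩, rfl⟩
      refine ⟨((t / r, t / r), q), ⟨by positivity, ?_, rfl, hq⟩, ?_⟩
      · simp only
        rw [div_le_one hr0]
        exact ht1
      · rw [Phi_apply, Th_apply]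
        simp only [w]
        rw [smul_smul, smul_add, smul_smul, mul_comm l, div_eq_mul_inv]
  rw [h2, Th_rot' hk hj hw hwb h.un h.ub h.bb, ← V_translate hj ((l / 2) • u)]
  refine V_mono ?_
  rintro _ ⟨_, ⟨y, ⟨⟨hy0, hyQ⟩, hy1⟩, rfl⟩, rfl⟩
  simp only [Set.mem_singleton_iff] at hy0
  rw [abs_le] at hy1
  refine ⟨(l / 2 + l * y.1.2, y.2), ⟨⟨?_, ?_⟩, hyQ⟩, ?_⟩
  · simp only
    nlinarith [hy1.1]
  · simp only
    nlinarith [hy1.2]
  · simp only [Th_apply, Phi_apply, hy0, zero_smul, zero_add, add_smul]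
    abel

theorem F_tilt (hk : k + 1 ≤ n) {a u : E n} {b : Fin k → E n} (h : Fr a u b) (a' : E n) {l : ℝ}
    (hl : 0 < l) (Q : Set (Fin k → ℝ)) :
    F n c (Phi a' u b l '' Wc ({0} ×ˢ Q) (1 / 2)) ≤ F n c (Phi a u b l '' PlQ Q) := by
  unfold F
  exact Finset.sum_le_sum fun i hi =>
    mul_le_mul_right (V_tilt hk (Finset.mem_range.1 hi) h a' hl Q) _

/-- Vertical plates. -/
theorem F_plate_lt (hj : k + 1 ≤ n) (hc : ∀ i, c i ≠ ∞) (hck : c k ≠ 0) {a u : E n}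
    {b : Fin k → E n} (h : Fr a u b) {l : ℝ} (hl : 0 < l) (x₀ α p m : ℝ) (hm0 : 0 ≤ m)
    (hm1 : m < p / 2) {Q : Set (Fin k → ℝ)} (hQc : IsCompact Q) (hQ : volume Q ≠ 0) :
    F n c (Phi a u b l '' (({x₀} ×ˢ Icc (-m) m) ×ˢ Q)) <
      F n c (Phi a u b l '' (({x₀} ×ˢ Icc α (α + p)) ×ˢ Q)) := by
  obtain ⟨κ, hκ0, hκt, hκ⟩ := V_plate hj h
  unfold F
  refine sum_lt (fun i hi => mul_le_mul_right ?_ _) (i₀ := k) (Finset.mem_range.2 hj) ?_ ?_
  · rw [← V_translate (Finset.mem_range.1 hi) ((l * (α + m)) • u)]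
    refine V_mono ?_
    rintro _ ⟨_, ⟨⟨⟨x, s⟩, q⟩, ⟨⟨hx, hs⟩, hq⟩, rfl⟩, rfl⟩
    simp only at hx hs hq
    refine ⟨((x, s + (α + m)), q), ⟨⟨hx, ?_, ?_⟩, hq⟩, ?_⟩
    · simp only
      linarith [hs.1]
    · simp only
      linarith [hs.2]
    · simp only [Phi_apply, mul_add, add_smul]
      abel
  · rw [ENNReal.mul_lt_mul_iff_right hck (hc k), hκ l hl, hκ l hl,
      ENNReal.mul_lt_mul_iff_right hκ0 hκt,
      ENNReal.mul_lt_mul_iff_left hQ hQc.measure_lt_top.ne]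
    rw [ENNReal.ofReal_lt_ofReal_iff (by nlinarith)]
    nlinarith
  · intro i hi
    refine ENNReal.mul_ne_top (hc i) (V_lt_top (Finset.mem_range.1 hi) ?_).ne
    exact (((isCompact_singleton.prod isCompact_Icc).prod hQc).image
      (Phi_continuous a u b l)).isBounded

variable {H : Submodule ℝ (E n)} {a u : E n} {b : Fin k → E n} {D : Set (E n) → Set (E n)}

/-- The lower bound. -/
theorem steiner_point (hj : k + 1 ≤ n) (hc : ∀ i, c i ≠ ∞) (hck : c k ≠ 0) (h : FrH H a u b)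
    (hD : Ext3 H c D) {l : ℝ}
    (hl : 0 < l) {X : Set (Y k)} (hX : NC X) {x₀ α p : ℝ} (hp : 0 < p)
    (hin : ∀ q ∈ Icc (0 : Fin k → ℝ) 1, ∀ s ∈ Icc α (α + p), ((x₀, s), q) ∈ X)
    {q₀ : Fin k → ℝ} (hq₀ : q₀ ∈ Icc (0 : Fin k → ℝ) 1) :
    ((x₀, p / 2), q₀) ∈ dia D a u b l X := by
  have hsy := dia_sy h hD hl hX
  rw [← hsy.compact.isClosed.closure_eq, Metric.mem_closure_iff]
  intro ε hε
  set ε' := ε / 2 with hε'
  have hε'0 : 0 < ε' := by positivity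
  let Q : Set (Fin k → ℝ) := Icc (fun i => max 0 (q₀ i - ε')) (fun i => min 1 (q₀ i + ε'))
  have hlt : ∀ i, max 0 (q₀ i - ε') < min 1 (q₀ i + ε') := by
    intro i
    have h1 : 0 ≤ q₀ i := hq₀.1 i
    have h2 : q₀ i ≤ 1 := hq₀.2 i
    refine max_lt (lt_min one_pos (by linarith)) (lt_min (by linarith) (by linarith))
  have hQne : Q.Nonempty := ⟨_, Set.left_mem_Icc.2 fun i => (hlt i).le⟩
  have hQvol : volume Q ≠ 0 := by
    change volume (Icc _ _) ≠ 0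
    rw [Real.volume_Icc_pi, Finset.prod_ne_zero_iff]
    intro i _
    rw [Ne, ENNReal.ofReal_eq_zero, not_le]
    linarith [hlt i]
  have hQsub : Q ⊆ Icc (0 : Fin k → ℝ) 1 := by
    intro q hq
    exact ⟨fun i => (le_max_left _ _).trans (hq.1 i), fun i => (hq.2 i).trans (min_le_left _ _)⟩
  have hQd : ∀ q ∈ Q, dist q₀ q ≤ ε' := by
    intro q hq
    rw [dist_pi_le_iff hε'0.le]
    intro i
    have h1 : q₀ i - ε' ≤ q i := (le_max_right _ _).trans (hq.1 i)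
    have h2 : q i ≤ q₀ i + ε' := (hq.2 i).trans (min_le_right _ _)
    rw [Real.dist_eq, abs_le]
    constructor <;> linarith
  let W : Set (Y k) := ({x₀} ×ˢ Icc α (α + p)) ×ˢ Q
  have hW : NC W := ⟨(isCompact_singleton.prod isCompact_Icc).prod isCompact_Icc,
    ((convex_singleton _).prod (convex_Icc _ _)).prod (convex_Icc _ _),
    ((Set.singleton_nonempty _).prod (Set.nonempty_Icc.2 (by linarith))).prod hQne⟩
  have hWX : W ⊆ X := by
    rintro ⟨⟨x, s⟩, q⟩ ⟨⟨hx, hs⟩, hq⟩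
    simp only [Set.mem_singleton_iff] at hx
    subst hx
    exact hin q (hQsub hq) s hs
  have hVd := dia_F h hD hl hW
  have hsyW := dia_sy h hD hl hW
  have hdW : ∀ y ∈ dia D a u b l W, y.1.1 = x₀ ∧ y.2 ∈ Q := by
    intro y hy
    obtain ⟨s, hs⟩ := dia_hor h hD hW hy
    exact ⟨hs.1.1, hs.2⟩
  obtain ⟨y, hy, hys⟩ : ∃ y ∈ dia D a u b l W, p / 2 ≤ |y.1.2| := by
    by_contra hcon
    push Not at hcon
    obtain ⟨y₀, hy₀, hmax⟩ := hsyW.compact.exists_isMaxOn (dia_nonempty h hD hl hW)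
      (f := fun y : Y k => |y.1.2|) (by fun_prop)
    have h1 : dia D a u b l W ⊆ ({x₀} ×ˢ Icc (-|y₀.1.2|) |y₀.1.2|) ×ˢ Q := by
      intro y hy
      obtain ⟨h2, h3⟩ := hdW y hy
      exact ⟨⟨h2, abs_le.1 (hmax hy)⟩, h3⟩
    have h2 := F_plate_lt hj hc hck h.toFr hl x₀ α p |y₀.1.2| (abs_nonneg _) (hcon y₀ hy₀)
      (Q := Q) isCompact_Icc hQvol
    have h3 : F n c (Phi a u b l '' W) ≤
        F n c (Phi a u b l '' (({x₀} ×ˢ Icc (-|y₀.1.2|) |y₀.1.2|) ×ˢ Q)) := by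
      rw [← hVd]
      exact F_mono (Set.image_mono h1)
    exact absurd h2 (not_lt.2 h3)
  obtain ⟨hy1, hy2⟩ := hdW y hy
  have hyX : y ∈ dia D a u b l X := dia_mono hD l hW hX hWX hy
  refine ⟨((y.1.1, p / 2), y.2), hsy.seg hyX ?_, ?_⟩
  · rw [abs_of_pos (by positivity)]
    exact hys
  · rw [Prod.dist_eq, Prod.dist_eq, hy1]
    simp only [dist_self, max_self]
    refine lt_of_le_of_lt (max_le hε'0.le (hQd _ hy2)) ?_
    rw [hε']
    linarith

end Pool.Agent.Y513.SG
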