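import Pool.Agent.Y513.SG.Cont

/-!
Nonnegative combinations of intrinsic volumes, the height bound and limits of symmetrizations.
-/

namespace Pool.Agent.Y513.SG

open MeasureTheory Module Set Filter Topology
open scoped ENNReal
open Pool.Agent.Results.MP_b62b68_gt.NoSymmetrization
open Pool.Agent.W570.Sym (Th Th_apply Th_V V_translate Z haarZ)

/-- A nonnegative combination of the intrinsic volumes of order `1, …, n`; the coefficient of the
intrinsic volume of order `i + 1` is `c i`. -/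
noncomputable def F (n : ℕ) (c : ℕ → ℝ≥0∞) (K : Set (E n)) : ℝ≥0∞ :=
  ∑ i ∈ Finset.range n, c i * V n (i + 1) K

variable {n : ℕ} {c : ℕ → ℝ≥0∞}

theorem F_mono {K L : Set (E n)} (h : K ⊆ L) : F n c K ≤ F n c L := by
  unfold F
  exact Finset.sum_le_sum fun i _ => mul_le_mul_right (V_mono h) _

theorem F_lt_top (hc : ∀ i, c i ≠ ∞) {K : Set (E n)} (hK : Bornology.IsBounded K) :
    F n c K < ∞ := by
  unfold F
  refine ENNReal.sum_lt_top.2 fun i hi => ?_
  exact ENNReal.mul_lt_top (hc i).lt_top (V_lt_top (Finset.mem_range.1 hi) hK)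

theorem F_tendsto (hc : ∀ i, c i ≠ ∞) {C : Set (E n)} {Cm : ℕ → Set (E n)} (hC : IsCompact C)
    (hCc : Convex ℝ C) (hm : ∀ m, IsCompact (Cm m)) (hcc : ∀ m, Convex ℝ (Cm m))
    (h : ∀ m : ℕ, C ⊆ Metric.cthickening (1 / (m + 1 : ℝ)) (Cm m))
    (h' : ∀ m : ℕ, Cm m ⊆ Metric.cthickening (1 / (m + 1 : ℝ)) C) :
    Tendsto (fun m => F n c (Cm m)) atTop (𝓝 (F n c C)) := by
  unfold F
  refine tendsto_finsetSum _ fun i hi => ?_
  exact ENNReal.Tendsto.const_mul
    (V_tendsto (Finset.mem_range.1 hi) hC hCc hm hcc h h') (Or.inr (hc i))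

theorem F_iInter (hc : ∀ i, c i ≠ ∞) {K : ℕ → Set (E n)} (hK : ∀ m, IsCompact (K m))
    (hanti : Antitone K) : F n c (⋂ m, K m) = ⨅ m, F n c (K m) := by
  have h1 : Antitone (fun m => F n c (K m)) := fun a b hab => F_mono (hanti hab)
  have h2 : Tendsto (fun m => F n c (K m)) atTop (𝓝 (F n c (⋂ m, K m))) := by
    unfold F
    refine tendsto_finsetSum _ fun i hi => ?_
    refine ENNReal.Tendsto.const_mul ?_ (Or.inr (hc i))
    rw [V_iInter (Finset.mem_range.1 hi) hK hanti]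
    exact tendsto_atTop_iInf fun a b hab => V_mono (hanti hab)
  exact tendsto_nhds_unique h2 (tendsto_atTop_iInf h1)

/-- The properties of a symmetrization, on all convex bodies. -/
structure Bod {n : ℕ} (H : Submodule ℝ (E n)) (D : Set (E n) → Set (E n)) : Prop where
  compact : ∀ K ∈ convexBodies n, IsCompact (D K)
  convex : ∀ K ∈ convexBodies n, Convex ℝ (D K)
  nonempty : ∀ K ∈ convexBodies n, (D K).Nonempty
  symm : ∀ K ∈ convexBodies n, ∀ x ∈ D K, H.reflection x ∈ D K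
  mono : ∀ K ∈ convexBodies n, ∀ L ∈ convexBodies n, K ⊆ L → D K ⊆ D L
  proj : ∀ K ∈ convexBodies n, ∀ x ∈ D K, ∃ y ∈ K, H.starProjection y = H.starProjection x

theorem star_mem {H : Submodule ℝ (E n)} {S : Set (E n)} (hc : Convex ℝ S)
    (hs : ∀ x ∈ S, H.reflection x ∈ S) {x : E n} (hx : x ∈ S) : H.starProjection x ∈ S := by
  have h1 := hc hx (hs x hx) (a := 1 / 2) (b := 1 / 2) (by norm_num) (by norm_num) (by norm_num)
  convert h1 using 1
  rw [← refl_eq, smul_sub, smul_smul]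
  norm_num

theorem ball_body {z : E n} {r : ℝ} (hr : 0 < r) : Metric.closedBall z r ∈ convexBodies n :=
  ⟨isCompact_closedBall z r, convex_closedBall z r,
    ⟨z, Metric.ball_subset_interior_closedBall (Metric.mem_ball_self hr)⟩⟩

theorem Bod.base {H : Submodule ℝ (E n)} {D : Set (E n) → Set (E n)} (hD : Bod H D)
    {K : Set (E n)} (hK : K ∈ convexBodies n) {x : E n} (hx : x ∈ interior K) :
    H.starProjection x ∈ D K := by
  rw [← (hD.compact K hK).isClosed.closure_eq, Metric.mem_closure_iff]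
  intro ε hε
  obtain ⟨r, hr, hxr⟩ := Metric.nhds_basis_closedBall.mem_iff.1 (mem_interior_iff_mem_nhds.1 hx)
  set s := min r (ε / 2) with hs
  have hs0 : 0 < s := lt_min hr (by positivity)
  have hB := ball_body (z := x) hs0
  obtain ⟨w, hw⟩ := hD.nonempty _ hB
  have hsub : Metric.closedBall x s ⊆ K := (Metric.closedBall_subset_closedBall (min_le_left _ _)).trans hxr
  have hwK := hD.mono _ hB K hK hsub hw
  refine ⟨_, star_mem (hD.convex K hK) (hD.symm K hK) hwK, ?_⟩
  obtain ⟨y, hy, hyw⟩ := hD.proj _ hB w hw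
  rw [← hyw, dist_eq_norm, ← map_sub]
  refine (H.norm_starProjection_apply_le _).trans_lt ?_
  rw [← dist_eq_norm, dist_comm]
  refine (Metric.mem_closedBall.1 hy).trans_lt ?_
  have := min_le_right r (ε / 2)
  linarith

theorem exists_ub (H : Submodule ℝ (E n)) (hH : finrank ℝ H + 1 = n) {i : ℕ}
    (hi : i ≤ finrank ℝ H) : ∃ (u : E n) (b : Fin i → E n), ‖u‖ = 1 ∧ u ∈ Hᗮ ∧ (∀ l, b l ∈ H) ∧
      Orthonormal ℝ b ∧ (∀ l, inner ℝ u (b l) = 0) ∧
      ∀ x : E n, ∃ t : ℝ, x = H.starProjection x + t • u := by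
  have hperp : finrank ℝ Hᗮ = 1 := by
    have h1 := H.finrank_add_finrank_orthogonal
    rw [finrank_euclideanSpace_fin] at h1
    omega
  let eu := (stdOrthonormalBasis ℝ Hᗮ).reindex (finCongr hperp)
  let e := stdOrthonormalBasis ℝ H
  let b : Fin i → E n := fun l => (e (Fin.castLE hi l) : H)
  let u : E n := (eu 0 : Hᗮ)
  refine ⟨u, b, eu.orthonormal.1 0, (eu 0).2, fun l => (e (Fin.castLE hi l)).2, ?_, ?_, ?_⟩
  · have h1 := e.orthonormal.comp _ (Fin.castLE_injective hi)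
    rw [orthonormal_iff_ite] at h1 ⊢
    exact h1
  · intro l
    exact Submodule.inner_left_of_mem_orthogonal (e (Fin.castLE hi l)).2 (eu 0).2
  · intro x
    have h1 : x - H.starProjection x ∈ Hᗮ := Submodule.sub_starProjection_mem_orthogonal x
    refine ⟨eu.repr ⟨_, h1⟩ 0, ?_⟩
    have h2 := eu.sum_repr ⟨_, h1⟩
    rw [Fin.sum_univ_one] at h2
    have h3 := congrArg (fun z : Hᗮ => (z : E n)) h2
    simp only [Submodule.coe_smul] at h3
    rw [show u = (eu 0 : E n) from rfl, h3]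
    abel

/-- The height bound. -/
theorem height (H : Submodule ℝ (E n)) (hH : finrank ℝ H + 1 = n) {i : ℕ}
    (hi : i < n) (hci : c i ≠ 0) (hct : c i ≠ ∞) {K : Set (E n)} (hK : K ∈ convexBodies n)
    {C : ℝ≥0∞}
    (hC : C ≠ ∞) : ∃ R : ℝ, ∀ D : Set (E n) → Set (E n), Bod H D → F n c (D K) ≤ C →
      D K ⊆ Metric.closedBall 0 R := by
  obtain ⟨u, b, hu1, huH, hbH, hb, hub, hdec⟩ := exists_ub H hH (i := i) (by omega)
  obtain ⟨κ, hκ0, hκt, hκ⟩ := Th_V (show i + 1 ≤ n by omega) hu1 hub hb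
  obtain ⟨hKc, hKv, z, hz⟩ := id hK
  obtain ⟨r, hr, hzr⟩ := Metric.isOpen_iff.1 isOpen_interior z hz
  set P := H.starProjection with hP
  set η : ℝ := r / (4 * (i + 1)) with hη
  have hη0 : 0 < η := by positivity
  let Q : Set (Fin i → ℝ) := Icc (fun _ => 0) (fun _ => η)
  have hQ : volume Q ≠ 0 := by
    change volume (Icc _ _) ≠ 0
    rw [Real.volume_Icc_pi, Finset.prod_ne_zero_iff]
    intro l _
    rw [Ne, ENNReal.ofReal_eq_zero, not_le]
    linarith
  obtain ⟨R, hR⟩ := hKc.isBounded.subset_closedBall 0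
  set M : ℝ≥0∞ := C / (c i * (κ * volume Q)) with hM
  have hq : c i * (κ * volume Q) ≠ 0 := mul_ne_zero hci (mul_ne_zero hκ0 hQ)
  have hMt : M ≠ ∞ := ENNReal.div_ne_top hC hq
  refine ⟨R + M.toReal, fun D hD hF => ?_⟩
  intro x hx
  have hxH : ‖P x‖ ≤ R := by
    obtain ⟨y, hy, hyx⟩ := hD.proj K hK x hx
    rw [← hyx]
    have := hR hy
    rw [mem_closedBall_zero_iff] at this
    exact (H.norm_starProjection_apply_le _).trans this
  obtain ⟨t, ht⟩ := hdec x
  have hPu : P u = 0 := (Submodule.starProjection_apply_eq_zero_iff H).2 huH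
  set h := |t| with hh
  have hh0 : 0 ≤ h := abs_nonneg t
  -- the vertical segment through `x`
  have hrx : P x - t • u ∈ D K := by
    have h1 := hD.symm K hK x hx
    rw [← refl_eq] at h1
    convert h1 using 1
    nth_rewrite 3 [ht]
    rw [two_smul]
    abel
  have hxx : P x + t • u ∈ D K := by
    rw [← ht]
    exact hx
  have hseg : ∀ s : ℝ, |s| ≤ h → P x + s • u ∈ D K := by
    intro s hs
    rcases eq_or_ne t 0 with h0 | h0
    · have : s = 0 := by
        rw [hh, h0, abs_zero] at hs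
        exact abs_eq_zero.1 (le_antisymm hs (abs_nonneg _))
      rw [this]
      rw [h0] at hxx
      exact hxx
    · have h1 : |s / t| ≤ 1 := by
        rw [abs_div, div_le_one (abs_pos.2 h0)]
        exact hs
      rw [abs_le] at h1
      have h2 := hD.convex K hK hxx hrx (a := (1 + s / t) / 2) (b := (1 - s / t) / 2)
        (by linarith [h1.1]) (by linarith [h1.2]) (by ring)
      convert h2 using 1
      have h3 : s = (1 + s / t) / 2 * t - (1 - s / t) / 2 * t := by
        field_simp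
        ring
      nth_rewrite 1 [h3]
      simp only [smul_add, smul_sub, smul_smul, sub_smul]
      have h4 : P x = ((1 + s / t) / 2) • P x + ((1 - s / t) / 2) • P x := by
        rw [← add_smul]
        have : (1 + s / t) / 2 + (1 - s / t) / 2 = 1 := by ring
        rw [this, one_smul]
      nth_rewrite 1 [h4]
      abel
  have hbase : ∀ w ∈ H, ‖w‖ < r → P z + w ∈ D K := by
    intro w hw hwr
    have h1 : z + w ∈ interior K := by
      refine hzr ?_
      rw [mem_ball_iff_norm, add_sub_cancel_left]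
      exact hwr
    have h2 := hD.base hK h1
    rw [map_add, Submodule.starProjection_eq_self_iff.2 hw] at h2
    exact h2
  have hplate : (fun y => ((1 / 2 : ℝ) • P z + (1 / 2 : ℝ) • P x) + y) ''
      (Th u b '' (Icc (-(h / 2)) (h / 2) ×ˢ Q)) ⊆ D K := by
    rintro _ ⟨_, ⟨⟨s, q⟩, ⟨hs, hq⟩, rfl⟩, rfl⟩
    simp only at hs hq
    have h1 : P x + (2 * s) • u ∈ D K := by
      refine hseg _ ?_
      rw [abs_le]
      constructor <;> linarith [hs.1, hs.2]
    have h2 : P z + (2 : ℝ) • ∑ l, q l • b l ∈ D K := by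
      refine hbase _ (H.smul_mem _ (H.sum_mem fun l _ => H.smul_mem _ (hbH l))) ?_
      rw [norm_smul, Real.norm_of_nonneg (by norm_num : (0 : ℝ) ≤ 2)]
      have h3 : ‖∑ l, q l • b l‖ ≤ i * η := by
        refine (norm_sum_le _ _).trans ?_
        have : ∀ l ∈ (Finset.univ : Finset (Fin i)), ‖q l • b l‖ ≤ η := by
          intro l _
          rw [norm_smul, hb.1 l, mul_one, Real.norm_of_nonneg (hq.1 l)]
          exact hq.2 l
        refine (Finset.sum_le_sum this).trans (le_of_eq ?_)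
        simp
      have h4 : (i : ℝ) * η ≤ r / 4 := by
        rw [hη, ← mul_div_assoc, div_le_div_iff₀ (by positivity) (by norm_num)]
        nlinarith [(Nat.cast_nonneg i : (0 : ℝ) ≤ i)]
      linarith
    have h5 := hD.convex K hK h2 h1 (a := 1 / 2) (b := 1 / 2) (by norm_num) (by norm_num)
      (by norm_num)
    convert h5 using 1
    simp only [Th_apply, smul_add, smul_smul]
    rw [show (1 / 2 : ℝ) * (2 * s) = s by ring, show (1 / 2 : ℝ) * 2 = 1 by norm_num, one_smul]
    abel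
  have h6 : V n (i + 1) (Th u b '' (Icc (-(h / 2)) (h / 2) ×ˢ Q)) ≤ V n (i + 1) (D K) := by
    rw [← V_translate (by omega) ((1 / 2 : ℝ) • P z + (1 / 2 : ℝ) • P x)]
    exact V_mono hplate
  rw [hκ, Measure.volume_eq_prod, Measure.prod_prod, Real.volume_Icc] at h6
  have h7 : c i * V n (i + 1) (D K) ≤ C := by
    refine le_trans ?_ hF
    unfold F
    exact Finset.single_le_sum (f := fun i => c i * V n (i + 1) (D K)) (fun _ _ => zero_le)
      (Finset.mem_range.2 hi)
  have h8 : ENNReal.ofReal h * (c i * (κ * volume Q)) ≤ C := by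
    refine le_trans (le_trans (le_of_eq ?_) (mul_le_mul_right h6 (c i))) h7
    rw [show h / 2 - -(h / 2) = h by ring]
    ring
  have hcc : c i * (κ * volume Q) ≠ ∞ :=
    ENNReal.mul_ne_top hct (ENNReal.mul_ne_top hκt isCompact_Icc.measure_lt_top.ne)
  have h9 : ENNReal.ofReal h ≤ M := by
    rw [hM, ENNReal.le_div_iff_mul_le (Or.inl hq) (Or.inl hcc)]
    exact h8
  have h10 : h ≤ M.toReal := (ENNReal.ofReal_le_iff_le_toReal hMt).1 h9
  rw [mem_closedBall_zero_iff, ht]
  refine (norm_add_le _ _).trans ?_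
  rw [norm_smul, hu1, mul_one, Real.norm_eq_abs]
  linarith

/-- The limit of symmetrizations along an ultrafilter. -/
def UL {I : Type} (U : Ultrafilter I) (D : I → Set (E n) → Set (E n)) (K : Set (E n)) :
    Set (E n) :=
  {x | ∀ δ : ℝ, 0 < δ → ∀ᶠ i in (U : Filter I), ∃ y ∈ D i K, dist x y < δ}

section UL

variable {I : Type} {U : Ultrafilter I} {D : I → Set (E n) → Set (E n)} {K : Set (E n)}

theorem UL_closed : IsClosed (UL U D K) := by
  rw [← isSeqClosed_iff_isClosed]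
  intro x p hx hp δ hδ
  obtain ⟨m, hm⟩ := (Metric.tendsto_atTop.1 hp (δ / 2) (by positivity))
  filter_upwards [hx m (δ / 2) (by positivity)] with i hi
  obtain ⟨y, hy, hyd⟩ := hi
  refine ⟨y, hy, ?_⟩
  have h1 := hm m le_rfl
  rw [dist_comm] at h1
  linarith [dist_triangle p (x m) y]

theorem UL_convex (hc : ∀ i, Convex ℝ (D i K)) : Convex ℝ (UL U D K) := by
  intro x hx y hy s t hs ht hst δ hδ
  filter_upwards [hx δ hδ, hy δ hδ] with i h1 h2
  obtain ⟨x', hx', hxd⟩ := h1
  obtain ⟨y', hy', hyd⟩ := h2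
  refine ⟨s • x' + t • y', hc i hx' hy' hs ht hst, ?_⟩
  rw [dist_eq_norm] at hxd hyd ⊢
  have h3 : s • x + t • y - (s • x' + t • y') = s • (x - x') + t • (y - y') := by
    simp only [smul_sub]
    abel
  rw [h3]
  refine (norm_add_le _ _).trans_lt ?_
  rw [norm_smul, norm_smul, Real.norm_of_nonneg hs, Real.norm_of_nonneg ht]
  rcases eq_or_lt_of_le hs with h0 | h0
  · rw [← h0] at hst ⊢
    rw [zero_add] at hst
    rw [hst]
    linarith
  · have h4 := mul_lt_mul_of_pos_left hxd h0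
    have h5 := mul_le_mul_of_nonneg_left hyd.le ht
    have h6 : s * δ + t * δ = δ := by rw [← add_mul, hst, one_mul]
    linarith

/-- A family of points has a limit. -/
theorem exists_lim {R : ℝ} (hR : ∀ᶠ i in (U : Filter I), D i K ⊆ Metric.closedBall 0 R)
    {y : I → E n} (hy : ∀ᶠ i in (U : Filter I), y i ∈ D i K) :
    ∃ x ∈ UL U D K, Tendsto y U (𝓝 x) := by
  have h1 : ∀ᶠ i in (U : Filter I), y i ∈ Metric.closedBall (0 : E n) R := by
    filter_upwards [hR, hy] with i h1 h2 using h1 h2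
  obtain ⟨x, -, hx⟩ := (isCompact_closedBall (0 : E n) R).ultrafilter_le_nhds (U.map y)
    (le_principal_iff.2 h1)
  refine ⟨x, ?_, hx⟩
  intro δ hδ
  have h2 : Tendsto y U (𝓝 x) := hx
  filter_upwards [Metric.tendsto_nhds.1 h2 δ hδ, hy] with i h3 h4
  exact ⟨y i, h4, by rw [dist_comm]; exact h3⟩

theorem UL_sub {R : ℝ} (hR : ∀ᶠ i in (U : Filter I), D i K ⊆ Metric.closedBall 0 R) :
    UL U D K ⊆ Metric.closedBall 0 R := by
  intro x hx
  rw [mem_closedBall_zero_iff]
  refine le_of_forall_pos_le_add fun δ hδ => ?_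
  obtain ⟨i, h1, y, hy, hxy⟩ := (hR.and (hx δ hδ)).exists
  have h2 := h1 hy
  rw [mem_closedBall_zero_iff] at h2
  rw [dist_eq_norm] at hxy
  have h3 : ‖x‖ ≤ ‖x - y‖ + ‖y‖ := by
    have := norm_add_le (x - y) y
    rwa [sub_add_cancel] at this
  linarith

theorem UL_compact {R : ℝ} (hR : ∀ᶠ i in (U : Filter I), D i K ⊆ Metric.closedBall 0 R) :
    IsCompact (UL U D K) :=
  (isCompact_closedBall (0 : E n) R).of_isClosed_subset UL_closed (UL_sub hR)

/-- Eventually the sets are close to the limit. -/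
theorem UL_close {R : ℝ} (hR : ∀ᶠ i in (U : Filter I), D i K ⊆ Metric.closedBall 0 R)
    {δ : ℝ} (hδ : 0 < δ) : ∀ᶠ i in (U : Filter I), D i K ⊆ Metric.cthickening δ (UL U D K) := by
  by_contra hcon
  rw [← Ultrafilter.eventually_not] at hcon
  have h1 : ∀ᶠ i in (U : Filter I), ∃ y ∈ D i K, y ∉ Metric.cthickening δ (UL U D K) := by
    filter_upwards [hcon] with i hi
    exact Set.not_subset.1 hi
  let y : I → E n := fun i => Classical.epsilon fun y => y ∈ D i K ∧ y ∉ Metric.cthickening δ (UL U D K)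
  have hy : ∀ᶠ i in (U : Filter I), y i ∈ D i K ∧ y i ∉ Metric.cthickening δ (UL U D K) := by
    filter_upwards [h1] with i hi
    exact Classical.epsilon_spec (p := fun y => y ∈ D i K ∧ y ∉ Metric.cthickening δ (UL U D K)) hi
  obtain ⟨x, hx, hxy⟩ := exists_lim hR (hy.mono fun i h => h.1)
  obtain ⟨i, h2, h3⟩ := ((Metric.tendsto_nhds.1 hxy δ hδ).and hy).exists
  exact h3.2 (Metric.mem_cthickening_of_dist_le _ x _ _ hx h2.le)

/-- Eventually the limit is close to the sets. -/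
theorem UL_close' {R : ℝ} (hR : ∀ᶠ i in (U : Filter I), D i K ⊆ Metric.closedBall 0 R)
    {δ : ℝ} (hδ : 0 < δ) : ∀ᶠ i in (U : Filter I), UL U D K ⊆ Metric.cthickening δ (D i K) := by
  obtain ⟨t, ht, hcov⟩ := (UL_compact hR).elim_nhds_subcover (fun x => Metric.ball x (δ / 2))
    (fun x _ => Metric.ball_mem_nhds x (by positivity))
  have h1 : ∀ᶠ i in (U : Filter I), ∀ x ∈ t, ∃ y ∈ D i K, dist x y < δ / 2 := by
    rw [Filter.eventually_all_finset]
    exact fun x hx => ht x hx (δ / 2) (by positivity)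
  filter_upwards [h1] with i hi
  intro p hp
  have h2 := hcov hp
  simp only [Set.mem_iUnion] at h2
  obtain ⟨x, hx, hpx⟩ := h2
  obtain ⟨y, hy, hxy⟩ := hi x hx
  refine Metric.mem_cthickening_of_dist_le p y _ _ hy ?_
  have h3 : dist p x < δ / 2 := hpx
  linarith [dist_triangle p x y]

end UL

/-- The limit of symmetrizations which asymptotically preserve a functional. -/
theorem exists_limit (hc : ∀ i, c i ≠ ∞) {i₀ : ℕ} (hi₀ : i₀ < n) (hci₀ : c i₀ ≠ 0)
    (H : Submodule ℝ (E n)) (hH : finrank ℝ H + 1 = n) {I : Type} (U : Ultrafilter I)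
    (D : I → Set (E n) → Set (E n)) (hD : ∀ i, Bod H (D i))
    (hF : ∀ K ∈ convexBodies n, ∀ ε : ℝ≥0∞, 0 < ε → ∀ᶠ i in (U : Filter I),
      F n c (D i K) ≤ F n c K + ε ∧ F n c K ≤ F n c (D i K) + ε) :
    Bod H (UL U D) ∧ ∀ K ∈ convexBodies n, F n c (UL U D K) = F n c K := by
  have hR : ∀ K ∈ convexBodies n, ∃ R : ℝ, ∀ᶠ i in (U : Filter I),
      D i K ⊆ Metric.closedBall 0 R := by
    intro K hK
    obtain ⟨R, hR⟩ := height H hH hi₀ hci₀ (hc i₀) hK (C := F n c K + 1)
      (ENNReal.add_ne_top.2 ⟨(F_lt_top hc hK.1.isBounded).ne, ENNReal.one_ne_top⟩)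
    refine ⟨R, ?_⟩
    filter_upwards [hF K hK 1 one_pos] with i hi
    exact hR (D i) (hD i) hi.1
  refine ⟨⟨?_, ?_, ?_, ?_, ?_, ?_⟩, ?_⟩
  · intro K hK
    obtain ⟨R, hR⟩ := hR K hK
    exact UL_compact hR
  · intro K hK
    exact UL_convex fun i => (hD i).convex K hK
  · intro K hK
    obtain ⟨R, hR⟩ := hR K hK
    choose y hy using fun i => (hD i).nonempty K hK
    obtain ⟨x, hx, -⟩ := exists_lim hR (y := y) (Eventually.of_forall hy)
    exact ⟨x, hx⟩
  · intro K hK x hx δ hδ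
    filter_upwards [hx δ hδ] with i hi
    obtain ⟨y, hy, hxy⟩ := hi
    exact ⟨H.reflection y, (hD i).symm K hK y hy, by rw [H.reflection.dist_map]; exact hxy⟩
  · intro K hK L hL hKL x hx δ hδ
    filter_upwards [hx δ hδ] with i hi
    obtain ⟨y, hy, hxy⟩ := hi
    exact ⟨y, (hD i).mono K hK L hL hKL hy, hxy⟩
  · intro K hK x hx
    have h1 : H.starProjection x ∈ H.starProjection '' K := by
      rw [← (hK.1.image H.starProjection.continuous).isClosed.closure_eq, Metric.mem_closure_iff]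
      intro δ hδ
      obtain ⟨i, y, hy, hxy⟩ := (hx δ hδ).exists
      obtain ⟨z, hz, hzy⟩ := (hD i).proj K hK y hy
      refine ⟨H.starProjection y, ⟨z, hz, hzy⟩, ?_⟩
      rw [dist_eq_norm, ← map_sub]
      refine (H.norm_starProjection_apply_le _).trans_lt ?_
      rw [← dist_eq_norm]
      exact hxy
    obtain ⟨y, hy, hyx⟩ := h1
    exact ⟨y, hy, hyx⟩
  · intro K hK
    obtain ⟨R, hRK⟩ := hR K hK
    have h1 : ∀ m : ℕ, ∃ i : I, (D i K ⊆ Metric.cthickening (1 / (m + 1 : ℝ)) (UL U D K)) ∧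
        (UL U D K ⊆ Metric.cthickening (1 / (m + 1 : ℝ)) (D i K)) ∧
        F n c (D i K) ≤ F n c K + ((m + 1 : ℕ) : ℝ≥0∞)⁻¹ ∧
        F n c K ≤ F n c (D i K) + ((m + 1 : ℕ) : ℝ≥0∞)⁻¹ := by
      intro m
      have hm : (0 : ℝ) < 1 / (m + 1 : ℝ) := by positivity
      have hm' : (0 : ℝ≥0∞) < ((m + 1 : ℕ) : ℝ≥0∞)⁻¹ :=
        ENNReal.inv_pos.2 (ENNReal.natCast_ne_top _)
      obtain ⟨i, h2, h3, h4⟩ := ((UL_close hRK hm).and ((UL_close' hRK hm).and
        (hF K hK _ hm'))).exists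
      exact ⟨i, h2, h3, h4⟩
    choose i h2 h3 h4 h5 using h1
    have h6 : Tendsto (fun m => F n c (D (i m) K)) atTop (𝓝 (F n c (UL U D K))) :=
      F_tendsto hc (UL_compact hRK) (UL_convex fun i => (hD i).convex K hK)
        (fun m => (hD _).compact K hK) (fun m => (hD _).convex K hK) h3 h2
    have h7 : Tendsto (fun m : ℕ => ((m + 1 : ℕ) : ℝ≥0∞)⁻¹) atTop (𝓝 0) :=
      (ENNReal.tendsto_inv_nat_nhds_zero).comp (tendsto_add_atTop_nat 1)
    refine le_antisymm ?_ ?_
    · have h8 : Tendsto (fun m : ℕ => F n c K + ((m + 1 : ℕ) : ℝ≥0∞)⁻¹) atTop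
          (𝓝 (F n c K + 0)) := tendsto_const_nhds.add h7
      rw [add_zero] at h8
      exact le_of_tendsto_of_tendsto' h6 h8 h4
    · have h8 : Tendsto (fun m : ℕ => F n c (D (i m) K) + ((m + 1 : ℕ) : ℝ≥0∞)⁻¹) atTop
          (𝓝 (F n c (UL U D K) + 0)) := h6.add h7
      rw [add_zero] at h8
      exact ge_of_tendsto' h8 h5

end Pool.Agent.Y513.SG
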