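import Pool.Agent.Y513.SG.GEnds

/-!
Limits of symmetrizations with varying hyperplanes, and the finite obstruction.
-/

namespace Pool.Agent.Y513.SG

open MeasureTheory Module Set Filter Topology
open scoped ENNReal NNReal
open Pool.Agent.Results.MP_b62b68_gt.NoSymmetrization
open Pool.Agent.W570.Sym (FrH exists_frH Th Th_apply Th_cons Th_V V_rot V_translate exists_cols Z)

/-- Plates in different positions. -/
theorem Th_frames {n k j : ℕ} (hk : k + 1 ≤ n) (hj : j ≤ n) {w w' : E n} {b b' : Fin k → E n}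
    (hw : ‖w‖ = 1) (hwb : ∀ i, inner ℝ w (b i) = 0) (hb : Orthonormal ℝ b) (hw' : ‖w'‖ = 1)
    (hwb' : ∀ i, inner ℝ w' (b' i) = 0) (hb' : Orthonormal ℝ b') (S : Set (Z k)) :
    V n j (Th w b '' S) = V n j (Th w' b' '' S) := by
  have key : ∀ (w : E n) (b : Fin k → E n), ‖w‖ = 1 → (∀ i, inner ℝ w (b i) = 0) →
      Orthonormal ℝ b →
      ∃ g : O n, ∀ i, col g (Fin.castLE hk i) = (Fin.cons w b : Fin (k + 1) → E n) i := by
    intro w b hw hwb hb
    refine exists_cols hk ?_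
    have hbu : ∀ i, inner ℝ (b i) w = 0 := fun i => by rw [real_inner_comm]; exact hwb i
    have hbb := orthonormal_iff_ite.1 hb
    rw [orthonormal_iff_ite]
    intro i l
    refine Fin.cases ?_ (fun i => ?_) i
    · refine Fin.cases ?_ (fun l => ?_) l
      · simp [hw]
      · simp [hwb, (Fin.succ_ne_zero _).symm]
    · refine Fin.cases ?_ (fun l => ?_) l
      · simp [hbu]
      · simp [hbb]
  obtain ⟨g, hg⟩ := key w b hw hwb hb
  obtain ⟨g', hg'⟩ := key w' b' hw' hwb' hb'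
  rw [← V_rot hj (g' * g⁻¹) (Th w b '' S), Set.image_image]
  congr 1
  refine Set.image_congr fun z _ => ?_
  rw [Th_cons, Th_cons, map_sum]
  refine Finset.sum_congr rfl fun i _ => ?_
  rw [map_smul, ← hg, ← hg']
  congr 1
  -- `g' g⁻¹` maps the columns of `g` to the columns of `g'`
  have h2 : ∀ m : Fin n, Matrix.toEuclideanLin ((g' * g⁻¹).1) (col g m) = col g' m := by
    intro m
    have h3 : ((g' * g⁻¹ * g).1) = g'.1 := by
      congr 1
      exact inv_mul_cancel_right g' g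
    ext l
    change ∑ p, (g' * g⁻¹).1 l p * g.1 p m = g'.1 l m
    rw [← Matrix.mul_apply]
    exact congrFun (congrFun h3 l) m
  exact h2 _

theorem exists_ref {n i : ℕ} (hi : i < n) : ∃ κ : ℝ≥0∞, κ ≠ 0 ∧ κ ≠ ∞ ∧
    ∀ (w : E n) (b : Fin i → E n), ‖w‖ = 1 → (∀ l, inner ℝ w (b l) = 0) → Orthonormal ℝ b →
      ∀ S : Set (Z i), V n (i + 1) (Th w b '' S) = κ * volume S := by
  let e := EuclideanSpace.basisFun (Fin n) ℝ
  let f : Fin (i + 1) → E n := fun l => e (Fin.castLE (show i + 1 ≤ n by omega) l)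
  have hf : Orthonormal ℝ f := e.orthonormal.comp _ (Fin.castLE_injective _)
  have hb0 : Orthonormal ℝ (fun l : Fin i => f l.succ) := hf.comp _ (Fin.succ_injective i)
  have hw0b : ∀ l : Fin i, inner ℝ (f 0) (f l.succ) = 0 := fun l =>
    hf.2 (Fin.succ_ne_zero l).symm
  obtain ⟨κ, hκ0, hκt, hκ⟩ := Th_V (show i + 1 ≤ n by omega) (hf.1 0) hw0b hb0
  refine ⟨κ, hκ0, hκt, fun w b hw hwb hb S => ?_⟩
  rw [Th_frames (by omega) (by omega) hw hwb hb (hf.1 0) hw0b hb0, hκ]

variable {n : ℕ} {c : ℕ → ℝ≥0∞}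

/-- The height bound, uniform in the hyperplane. -/
theorem heightU {i : ℕ}
    (hi : i < n) (hci : c i ≠ 0) (hct : c i ≠ ∞) {K : Set (E n)} (hK : K ∈ convexBodies n)
    {C : ℝ≥0∞}
    (hC : C ≠ ∞) : ∃ R : ℝ, ∀ H : Submodule ℝ (E n), finrank ℝ H + 1 = n →
      ∀ D : Set (E n) → Set (E n), Bod H D → F n c (D K) ≤ C →
      D K ⊆ Metric.closedBall 0 R := by
  obtain ⟨κ, hκ0, hκt, hκ⟩ := exists_ref hi
  obtain ⟨hKc, hKv, z, hz⟩ := id hK
  obtain ⟨r, hr, hzr⟩ := Metric.isOpen_iff.1 isOpen_interior z hz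
  set η : ℝ := r / (4 * (i + 1)) with hη
  have hη0 : 0 < η := by positivity
  let Q : Set (Fin i → ℝ) := Icc (fun _ => 0) (fun _ => η)
  have hQ : volume Q ≠ 0 := by
    change volume (Icc _ _) ≠ 0
    rw [Real.volume_Icc_pi, Finset.prod_ne_zero_iff]
    intro l _
    rw [Ne, ENNReal.ofReal_eq_zero, not_le]
    linarith
  obtain ⟨R, hR⟩ := hKc.isBounded.subset_closedBall 0
  set M : ℝ≥0∞ := C / (c i * (κ * volume Q)) with hM
  have hq : c i * (κ * volume Q) ≠ 0 := mul_ne_zero hci (mul_ne_zero hκ0 hQ)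
  have hMt : M ≠ ∞ := ENNReal.div_ne_top hC hq
  refine ⟨R + M.toReal, fun H hH D hD hF => ?_⟩
  obtain ⟨u, b, hu1, huH, hbH, hb, hub, hdec⟩ := exists_ub H hH (i := i) (by omega)
  set P := H.starProjection with hP
  intro x hx
  have hxH : ‖P x‖ ≤ R := by
    obtain ⟨y, hy, hyx⟩ := hD.proj K hK x hx
    rw [← hyx]
    have := hR hy
    rw [mem_closedBall_zero_iff] at this
    exact (H.norm_starProjection_apply_le _).trans this
  obtain ⟨t, ht⟩ := hdec x
  have hPu : P u = 0 := (Submodule.starProjection_apply_eq_zero_iff H).2 huH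
  set h := |t| with hh
  have hh0 : 0 ≤ h := abs_nonneg t
  -- the vertical segment through `x`
  have hrx : P x - t • u ∈ D K := by
    have h1 := hD.symm K hK x hx
    rw [← refl_eq] at h1
    convert h1 using 1
    nth_rewrite 3 [ht]
    rw [two_smul]
    abel
  have hxx : P x + t • u ∈ D K := by
    rw [← ht]
    exact hx
  have hseg : ∀ s : ℝ, |s| ≤ h → P x + s • u ∈ D K := by
    intro s hs
    rcases eq_or_ne t 0 with h0 | h0
    · have : s = 0 := by
        rw [hh, h0, abs_zero] at hs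
        exact abs_eq_zero.1 (le_antisymm hs (abs_nonneg _))
      rw [this]
      rw [h0] at hxx
      exact hxx
    · have h1 : |s / t| ≤ 1 := by
        rw [abs_div, div_le_one (abs_pos.2 h0)]
        exact hs
      rw [abs_le] at h1
      have h2 := hD.convex K hK hxx hrx (a := (1 + s / t) / 2) (b := (1 - s / t) / 2)
        (by linarith [h1.1]) (by linarith [h1.2]) (by ring)
      convert h2 using 1
      have h3 : s = (1 + s / t) / 2 * t - (1 - s / t) / 2 * t := by
        field_simp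
        ring
      nth_rewrite 1 [h3]
      simp only [smul_add, smul_sub, smul_smul, sub_smul]
      have h4 : P x = ((1 + s / t) / 2) • P x + ((1 - s / t) / 2) • P x := by
        rw [← add_smul]
        have : (1 + s / t) / 2 + (1 - s / t) / 2 = 1 := by ring
        rw [this, one_smul]
      nth_rewrite 1 [h4]
      abel
  have hbase : ∀ w ∈ H, ‖w‖ < r → P z + w ∈ D K := by
    intro w hw hwr
    have h1 : z + w ∈ interior K := by
      refine hzr ?_
      rw [mem_ball_iff_norm, add_sub_cancel_left]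
      exact hwr
    have h2 := hD.base hK h1
    rw [map_add, Submodule.starProjection_eq_self_iff.2 hw] at h2
    exact h2
  have hplate : (fun y => ((1 / 2 : ℝ) • P z + (1 / 2 : ℝ) • P x) + y) ''
      (Th u b '' (Icc (-(h / 2)) (h / 2) ×ˢ Q)) ⊆ D K := by
    rintro _ ⟨_, ⟨⟨s, q⟩, ⟨hs, hq⟩, rfl⟩, rfl⟩
    simp only at hs hq
    have h1 : P x + (2 * s) • u ∈ D K := by
      refine hseg _ ?_
      rw [abs_le]
      constructor <;> linarith [hs.1, hs.2]
    have h2 : P z + (2 : ℝ) • ∑ l, q l • b l ∈ D K := by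
      refine hbase _ (H.smul_mem _ (H.sum_mem fun l _ => H.smul_mem _ (hbH l))) ?_
      rw [norm_smul, Real.norm_of_nonneg (by norm_num : (0 : ℝ) ≤ 2)]
      have h3 : ‖∑ l, q l • b l‖ ≤ i * η := by
        refine (norm_sum_le _ _).trans ?_
        have : ∀ l ∈ (Finset.univ : Finset (Fin i)), ‖q l • b l‖ ≤ η := by
          intro l _
          rw [norm_smul, hb.1 l, mul_one, Real.norm_of_nonneg (hq.1 l)]
          exact hq.2 l
        refine (Finset.sum_le_sum this).trans (le_of_eq ?_)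
        simp
      have h4 : (i : ℝ) * η ≤ r / 4 := by
        rw [hη, ← mul_div_assoc, div_le_div_iff₀ (by positivity) (by norm_num)]
        nlinarith [(Nat.cast_nonneg i : (0 : ℝ) ≤ i)]
      linarith
    have h5 := hD.convex K hK h2 h1 (a := 1 / 2) (b := 1 / 2) (by norm_num) (by norm_num)
      (by norm_num)
    convert h5 using 1
    simp only [Th_apply, smul_add, smul_smul]
    rw [show (1 / 2 : ℝ) * (2 * s) = s by ring, show (1 / 2 : ℝ) * 2 = 1 by norm_num, one_smul]
    abel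
  have h6 : V n (i + 1) (Th u b '' (Icc (-(h / 2)) (h / 2) ×ˢ Q)) ≤ V n (i + 1) (D K) := by
    rw [← V_translate (by omega) ((1 / 2 : ℝ) • P z + (1 / 2 : ℝ) • P x)]
    exact V_mono hplate
  rw [hκ u b hu1 hub hb, Measure.volume_eq_prod, Measure.prod_prod, Real.volume_Icc] at h6
  have h7 : c i * V n (i + 1) (D K) ≤ C := by
    refine le_trans ?_ hF
    unfold F
    exact Finset.single_le_sum (f := fun i => c i * V n (i + 1) (D K)) (fun _ _ => zero_le)
      (Finset.mem_range.2 hi)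
  have h8 : ENNReal.ofReal h * (c i * (κ * volume Q)) ≤ C := by
    refine le_trans (le_trans (le_of_eq ?_) (mul_le_mul_right h6 (c i))) h7
    rw [show h / 2 - -(h / 2) = h by ring]
    ring
  have hcc : c i * (κ * volume Q) ≠ ∞ :=
    ENNReal.mul_ne_top hct (ENNReal.mul_ne_top hκt isCompact_Icc.measure_lt_top.ne)
  have h9 : ENNReal.ofReal h ≤ M := by
    rw [hM, ENNReal.le_div_iff_mul_le (Or.inl hq) (Or.inl hcc)]
    exact h8
  have h10 : h ≤ M.toReal := (ENNReal.ofReal_le_iff_le_toReal hMt).1 h9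
  rw [mem_closedBall_zero_iff, ht]
  refine (norm_add_le _ _).trans ?_
  rw [norm_smul, hu1, mul_one, Real.norm_eq_abs]
  linarith

theorem exists_normal (H : Submodule ℝ (E n)) (hH : finrank ℝ H + 1 = n) :
    ∃ u : E n, ‖u‖ = 1 ∧ ∀ x, H.starProjection x = x - inner ℝ u x • u := by
  obtain ⟨u, b, hu1, huH, -, -, -, hdec⟩ := exists_ub H hH (i := 0) (Nat.zero_le _)
  refine ⟨u, hu1, fun x => ?_⟩
  obtain ⟨t, ht⟩ := hdec x
  have h1 : inner ℝ u (H.starProjection x) = 0 :=
    Submodule.inner_left_of_mem_orthogonal (Submodule.starProjection_apply_mem H x) huH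
  have h2 : inner ℝ u x = t := by
    nth_rewrite 1 [ht]
    rw [inner_add_right, h1, inner_smul_right, real_inner_self_eq_norm_sq, hu1]
    ring
  rw [h2]
  nth_rewrite 2 [ht]
  rw [add_sub_cancel_right]

theorem exists_hyper (u : E n) (hu : ‖u‖ = 1) : ∃ H : Submodule ℝ (E n), finrank ℝ H + 1 = n ∧
    ∀ x, H.starProjection x = x - inner ℝ u x • u := by
  have hu0 : u ≠ 0 := by
    rintro rfl
    rw [norm_zero] at hu
    exact zero_ne_one hu
  refine ⟨(ℝ ∙ u)ᗮ, ?_, ?_⟩
  · have h1 := (ℝ ∙ u).finrank_add_finrank_orthogonal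
    rw [finrank_euclideanSpace_fin, finrank_span_singleton hu0] at h1
    omega
  · intro x
    rw [Submodule.starProjection_orthogonal_val, Submodule.starProjection_unit_singleton ℝ hu]

/-- The limit of symmetrizations which asymptotically preserve a functional. -/
theorem exists_limitU (hc : ∀ i, c i ≠ ∞) {i₀ : ℕ} (hi₀ : i₀ < n) (hci₀ : c i₀ ≠ 0)
    {I : Type} (U : Ultrafilter I) (H : I → Submodule ℝ (E n)) (hH : ∀ i, finrank ℝ (H i) + 1 = n)
    (D : I → Set (E n) → Set (E n)) (hD : ∀ i, Bod (H i) (D i))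
    (hF : ∀ K ∈ convexBodies n, ∀ ε : ℝ≥0∞, 0 < ε → ∀ᶠ i in (U : Filter I),
      F n c (D i K) ≤ F n c K + ε ∧ F n c K ≤ F n c (D i K) + ε) :
    ∃ H' : Submodule ℝ (E n), finrank ℝ H' + 1 = n ∧
      Bod H' (UL U D) ∧ ∀ K ∈ convexBodies n, F n c (UL U D K) = F n c K := by
  have hR : ∀ K ∈ convexBodies n, ∃ R : ℝ, ∀ᶠ i in (U : Filter I),
      D i K ⊆ Metric.closedBall 0 R := by
    intro K hK
    obtain ⟨R, hR⟩ := heightU hi₀ hci₀ (hc i₀) hK (C := F n c K + 1)
      (ENNReal.add_ne_top.2 ⟨(F_lt_top hc hK.1.isBounded).ne, ENNReal.one_ne_top⟩)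
    refine ⟨R, ?_⟩
    filter_upwards [hF K hK 1 one_pos] with i hi
    exact hR (H i) (hH i) (D i) (hD i) hi.1
  choose u hu1 hu using fun i => exists_normal (H i) (hH i)
  have hsph : ∀ᶠ i in (U : Filter I), u i ∈ Metric.sphere (0 : E n) 1 :=
    Eventually.of_forall fun i => by
      rw [mem_sphere_zero_iff_norm]
      exact hu1 i
  obtain ⟨u', hu'1, hu'⟩ := (isCompact_sphere (0 : E n) 1).ultrafilter_le_nhds (U.map u)
    (le_principal_iff.2 hsph)
  have hut : Tendsto u U (𝓝 u') := hu'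
  rw [mem_sphere_zero_iff_norm] at hu'1
  obtain ⟨H', hH'n, hH'⟩ := exists_hyper u' hu'1
  -- closeness of the projections
  have hdist : ∀ (i : I) (x : E n), ‖(H i).starProjection x - H'.starProjection x‖ ≤
      2 * ‖u i - u'‖ * ‖x‖ := by
    intro i x
    rw [hu, hH']
    have h1 : x - inner ℝ (u i) x • u i - (x - inner ℝ u' x • u') =
        -(inner ℝ (u i - u') x • u i) - inner ℝ u' x • (u i - u') := by
      rw [inner_sub_left]
      simp only [smul_sub, sub_smul]
      abel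
    rw [h1]
    refine (norm_sub_le _ _).trans ?_
    rw [norm_neg, norm_smul, norm_smul, hu1, mul_one]
    have h2 : ‖inner ℝ (u i - u') x‖ ≤ ‖u i - u'‖ * ‖x‖ := norm_inner_le_norm _ _
    have h3 : ‖inner ℝ u' x‖ ≤ ‖u'‖ * ‖x‖ := norm_inner_le_norm _ _
    rw [hu'1, one_mul] at h3
    nlinarith [norm_nonneg (u i - u')]
  have hsmall : ∀ (R : ℝ) {δ : ℝ}, 0 < δ → ∀ᶠ i in (U : Filter I), ∀ x : E n, ‖x‖ ≤ R →
      ‖(H i).starProjection x - H'.starProjection x‖ < δ := by
    intro R δ hδ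
    have h1 : Tendsto (fun i => 2 * ‖u i - u'‖ * |R|) U (𝓝 0) := by
      have h2 : Tendsto (fun i => u i - u') U (𝓝 0) := by
        rw [← sub_self u']
        exact hut.sub tendsto_const_nhds
      have h3 := (h2.norm.const_mul 2).mul_const |R|
      simpa using h3
    filter_upwards [h1.eventually (gt_mem_nhds hδ)] with i hi x hx
    refine (hdist i x).trans_lt (lt_of_le_of_lt ?_ hi)
    have : ‖x‖ ≤ |R| := hx.trans (le_abs_self R)
    gcongr
  refine ⟨H', hH'n, ⟨?_, ?_, ?_, ?_, ?_, ?_⟩, ?_⟩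
  · intro K hK
    obtain ⟨R, hR⟩ := hR K hK
    exact UL_compact hR
  · intro K hK
    exact UL_convex fun i => (hD i).convex K hK
  · intro K hK
    obtain ⟨R, hR⟩ := hR K hK
    choose y hy using fun i => (hD i).nonempty K hK
    obtain ⟨x, hx, -⟩ := exists_lim hR (y := y) (Eventually.of_forall hy)
    exact ⟨x, hx⟩
  · intro K hK x hx δ hδ
    filter_upwards [hx (δ / 2) (by positivity), hsmall ‖x‖ (show 0 < δ / 4 by positivity)] with
      i hi hi'
    obtain ⟨y, hy, hxy⟩ := hi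
    refine ⟨(H i).reflection y, (hD i).symm K hK y hy, ?_⟩
    have h1 : dist (H'.reflection x) ((H i).reflection x) < δ / 2 := by
      rw [← refl_eq, ← refl_eq, dist_eq_norm]
      have h2 : (2 : ℝ) • H'.starProjection x - x - ((2 : ℝ) • (H i).starProjection x - x) =
          -((2 : ℝ) • ((H i).starProjection x - H'.starProjection x)) := by
        rw [smul_sub]
        abel
      rw [h2, norm_neg, norm_smul, Real.norm_of_nonneg (by norm_num : (0 : ℝ) ≤ 2)]
      have := hi' x le_rfl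
      linarith
    have h3 : dist ((H i).reflection x) ((H i).reflection y) < δ / 2 := by
      rw [(H i).reflection.dist_map]
      exact hxy
    linarith [dist_triangle (H'.reflection x) ((H i).reflection x) ((H i).reflection y)]
  · intro K hK L hL hKL x hx δ hδ
    filter_upwards [hx δ hδ] with i hi
    obtain ⟨y, hy, hxy⟩ := hi
    exact ⟨y, (hD i).mono K hK L hL hKL hy, hxy⟩
  · intro K hK x hx
    obtain ⟨RK, hRK⟩ := hK.1.isBounded.subset_closedBall 0
    have h1 : H'.starProjection x ∈ H'.starProjection '' K := by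
      rw [← (hK.1.image H'.starProjection.continuous).isClosed.closure_eq, Metric.mem_closure_iff]
      intro δ hδ
      obtain ⟨i, ⟨y, hy, hxy⟩, hi'⟩ := ((hx (δ / 3) (by positivity)).and
        (hsmall (max ‖x‖ RK) (show 0 < δ / 3 by positivity))).exists
      obtain ⟨z, hz, hzy⟩ := (hD i).proj K hK y hy
      refine ⟨H'.starProjection z, ⟨z, hz, rfl⟩, ?_⟩
      have h2 := hi' x (le_max_left _ _)
      have h3 := hi' z ((mem_closedBall_zero_iff.1 (hRK hz)).trans (le_max_right _ _))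
      have h4 : ‖(H i).starProjection x - (H i).starProjection y‖ < δ / 3 := by
        rw [← map_sub]
        refine ((H i).norm_starProjection_apply_le _).trans_lt ?_
        rw [← dist_eq_norm]
        exact hxy
      rw [dist_eq_norm]
      have h5 : H'.starProjection x - H'.starProjection z =
          -((H i).starProjection x - H'.starProjection x) +
            ((H i).starProjection x - (H i).starProjection y) +
            ((H i).starProjection z - H'.starProjection z) := by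
        rw [hzy]
        abel
      rw [h5]
      refine (norm_add₃_le).trans_lt ?_
      rw [norm_neg]
      linarith
    obtain ⟨y, hy, hyx⟩ := h1
    exact ⟨y, hy, hyx⟩
  · intro K hK
    obtain ⟨R, hRK⟩ := hR K hK
    have h1 : ∀ m : ℕ, ∃ i : I, (D i K ⊆ Metric.cthickening (1 / (m + 1 : ℝ)) (UL U D K)) ∧
        (UL U D K ⊆ Metric.cthickening (1 / (m + 1 : ℝ)) (D i K)) ∧
        F n c (D i K) ≤ F n c K + ((m + 1 : ℕ) : ℝ≥0∞)⁻¹ ∧
        F n c K ≤ F n c (D i K) + ((m + 1 : ℕ) : ℝ≥0∞)⁻¹ := by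
      intro m
      have hm : (0 : ℝ) < 1 / (m + 1 : ℝ) := by positivity
      have hm' : (0 : ℝ≥0∞) < ((m + 1 : ℕ) : ℝ≥0∞)⁻¹ :=
        ENNReal.inv_pos.2 (ENNReal.natCast_ne_top _)
      obtain ⟨i, h2, h3, h4⟩ := ((UL_close hRK hm).and ((UL_close' hRK hm).and
        (hF K hK _ hm'))).exists
      exact ⟨i, h2, h3, h4⟩
    choose i h2 h3 h4 h5 using h1
    have h6 : Tendsto (fun m => F n c (D (i m) K)) atTop (𝓝 (F n c (UL U D K))) :=
      F_tendsto hc (UL_compact hRK) (UL_convex fun i => (hD i).convex K hK)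
        (fun m => (hD _).compact K hK) (fun m => (hD _).convex K hK) h3 h2
    have h7 : Tendsto (fun m : ℕ => ((m + 1 : ℕ) : ℝ≥0∞)⁻¹) atTop (𝓝 0) :=
      (ENNReal.tendsto_inv_nat_nhds_zero).comp (tendsto_add_atTop_nat 1)
    refine le_antisymm ?_ ?_
    · have h8 : Tendsto (fun m : ℕ => F n c K + ((m + 1 : ℕ) : ℝ≥0∞)⁻¹) atTop
          (𝓝 (F n c K + 0)) := tendsto_const_nhds.add h7
      rw [add_zero] at h8
      exact le_of_tendsto_of_tendsto' h6 h8 h4
    · have h8 : Tendsto (fun m : ℕ => F n c (D (i m) K) + ((m + 1 : ℕ) : ℝ≥0∞)⁻¹) atTop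
          (𝓝 (F n c (UL U D K) + 0)) := h6.add h7
      rw [add_zero] at h8
      exact ge_of_tendsto' h8 h5

/-- No symmetrization preserves a combination which is not a multiple of the first or of the last
intrinsic volume. -/
theorem no_ext_all (hn : 3 ≤ n) (hc : ∀ i, c i ≠ ∞) (h1 : ∃ i, 1 ≤ i ∧ i < n ∧ c i ≠ 0)
    (h2 : ∃ i, i + 1 < n ∧ c i ≠ 0) (H : Submodule ℝ (E n)) (hH : finrank ℝ H + 1 = n)
    {D : Set (E n) → Set (E n)} (hD : Ext3 H c D) : False := by
  by_cases hmid : ∃ i, 1 ≤ i ∧ i + 1 < n ∧ c i ≠ 0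
  · obtain ⟨i, hi1, hi2, hi⟩ := hmid
    obtain ⟨k, rfl⟩ : ∃ k, i = k + 1 := ⟨i - 1, by omega⟩
    exact no_ext3 (k := k) (by omega) hc hi H hH (by omega) hD
  · push Not at hmid
    obtain ⟨i, hi1, hi2, hi⟩ := h1
    have hin : i + 1 = n := by
      by_contra h0
      exact hi (hmid i hi1 (by omega))
    obtain ⟨i', hi1', hi'⟩ := h2
    have hi0 : i' = 0 := by
      by_contra h0
      exact hi' (hmid i' (by omega) hi1')
    subst hi0
    obtain ⟨k, rfl⟩ : ∃ k, n = k + 1 + 2 := ⟨n - 3, by omega⟩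
    obtain ⟨a, u, b, h⟩ := exists_frH (k := k) H hH (by omega)
    have : i = k + 1 + 1 := by omega
    subst this
    refine contra_ends rfl (by omega) hc hi' hi ?_ h hD
    intro l hl hl0 hlk
    exact hmid l (by omega) (by omega)

theorem le_of_abs {x y : ℝ≥0∞} (hx : x ≠ ∞) (hy : y ≠ ∞) {δ : ℝ}
    (h : |x.toReal - y.toReal| < δ) : x ≤ y + ENNReal.ofReal δ ∧ y ≤ x + ENNReal.ofReal δ := by
  rw [abs_lt] at h
  have hδ : 0 ≤ δ := by linarith
  constructor
  · rw [← ENNReal.ofReal_toReal hx, ← ENNReal.ofReal_toReal hy,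
      ← ENNReal.ofReal_add ENNReal.toReal_nonneg hδ]
    exact ENNReal.ofReal_le_ofReal (by linarith)
  · rw [← ENNReal.ofReal_toReal hx, ← ENNReal.ofReal_toReal hy,
      ← ENNReal.ofReal_add ENNReal.toReal_nonneg hδ]
    exact ENNReal.ofReal_le_ofReal (by linarith)

/-- The finite obstruction. -/
theorem finite_obstruction (hn : 3 ≤ n) (hc : ∀ i, c i ≠ ∞)
    (h1 : ∃ i, 1 ≤ i ∧ i < n ∧ c i ≠ 0)
    (h2 : ∃ i, i + 1 < n ∧ c i ≠ 0) :
    ∃ (𝓕 : Set (Set (E n))) (ε : ℝ), 𝓕.Finite ∧ 𝓕 ⊆ convexBodies n ∧ 0 < ε ∧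
      ∀ H : Submodule ℝ (E n), finrank ℝ H + 1 = n →
      ∀ D : Set (E n) → Set (E n), Bod H D →
        ∃ K ∈ 𝓕, ε ≤ |(F n c (D K)).toReal - (F n c K).toReal| := by
  classical
  by_contra hcon
  push Not at hcon
  let I : Type := Finset ↥(convexBodies n) × ℕ
  have hex : ∀ i : I, ∃ (H : Submodule ℝ (E n)) (D : Set (E n) → Set (E n)),
      finrank ℝ H + 1 = n ∧ Bod H D ∧
      ∀ K ∈ i.1, |(F n c (D K)).toReal - (F n c K).toReal| < 1 / ((i.2 : ℝ) + 1) := by
    intro i
    obtain ⟨H, hH, D, hD, hK⟩ := hcon (Subtype.val '' (i.1 : Set ↥(convexBodies n)))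
      (1 / ((i.2 : ℝ) + 1)) (i.1.finite_toSet.image _) (by rintro _ ⟨K, -, rfl⟩; exact K.2)
      (by positivity)
    exact ⟨H, D, hH, hD, fun K hKi => hK K ⟨K, hKi, rfl⟩⟩
  choose H D hH hD hDF using hex
  let U : Ultrafilter I := Ultrafilter.of atTop
  have hU : (U : Filter I) ≤ atTop := Ultrafilter.of_le _
  have hF : ∀ K ∈ convexBodies n, ∀ ε : ℝ≥0∞, 0 < ε → ∀ᶠ i in (U : Filter I),
      F n c (D i K) ≤ F n c K + ε ∧ F n c K ≤ F n c (D i K) + ε := by
    intro K hK ε hε
    obtain ⟨m, hm⟩ : ∃ m : ℕ, ENNReal.ofReal (1 / ((m : ℝ) + 1)) < ε := by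
      have h3 : Tendsto (fun m : ℕ => ENNReal.ofReal (1 / ((m : ℝ) + 1))) atTop (𝓝 0) := by
        rw [← ENNReal.ofReal_zero]
        exact ENNReal.tendsto_ofReal tendsto_one_div_add_atTop_nhds_zero_nat
      exact (h3.eventually (gt_mem_nhds hε)).exists
    refine hU ?_
    refine Filter.mem_of_superset
      (Filter.Ici_mem_atTop ((({⟨K, hK⟩} : Finset ↥(convexBodies n)), m) : I)) ?_
    intro i hi
    have h4 : (⟨K, hK⟩ : ↥(convexBodies n)) ∈ i.1 := hi.1 (Finset.mem_singleton_self _)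
    have h5 : (m : ℝ) ≤ i.2 := by exact_mod_cast hi.2
    have h6 := hDF i _ h4
    have h7 : ENNReal.ofReal (1 / ((i.2 : ℝ) + 1)) ≤ ε := by
      refine le_trans (ENNReal.ofReal_le_ofReal ?_) hm.le
      gcongr
    obtain ⟨h8, h9⟩ := le_of_abs (F_lt_top hc ((hD i).compact K hK).isBounded).ne
      (F_lt_top hc hK.1.isBounded).ne h6
    exact ⟨h8.trans (add_le_add_right h7 _), h9.trans (add_le_add_right h7 _)⟩
  obtain ⟨i₀, hi₀, hin⟩ := h2
  obtain ⟨H', hH', hB, hP⟩ := exists_limitU hc (i₀ := i₀) (by omega) hin U H hH D hD hF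
  obtain ⟨D', hD'⟩ := exists_ext3 hc H' _ hB hP
  exact no_ext_all hn hc h1 ⟨i₀, hi₀, hin⟩ H' hH' hD'

end Pool.Agent.Y513.SG
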